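import Pool.Agent.H21.TU.Grd

/-!
# Project TU: change of one wall, continuous version
-/

set_option autoImplicit false

namespace Pool.Agent.H21.TU

open Filter Topology
open Pool.Agent.H47.ST (ps rl lam)

variable {ι F : Type*} [Fintype ι] [DecidableEq ι] [Field F]

omit [Fintype ι] [DecidableEq ι] in
/-- If the step functions of `f` and `f'` differ at `v`, both functions are almost of opposite
sign at `w` (local version of `st_ne`). -/
theorem HomS_ne {f f' : (ι → ℤ) → ℝ} {δ : ℝ} {v w : ι → ℤ} (h1 : |f v - f w| ≤ δ)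
    (h2 : |f' v - f' w| ≤ δ) (h : st F f v ≠ st F f' v) :
    min (f w) (f' w) ≤ δ ∧ -δ ≤ max (f w) (f' w) := by
  rw [abs_le] at h1 h2
  unfold st at h
  refine Wall_st h (fun h3 h4 => ⟨(min_le_right _ _).trans ?_, le_trans ?_ (le_max_left _ _)⟩)
    (fun h3 h4 => ⟨(min_le_left _ _).trans ?_, le_trans ?_ (le_max_right _ _)⟩) <;>
    linarith [h1.1, h1.2, h2.1, h2.2]

omit [Fintype ι] [DecidableEq ι] in
/-- If the step function of `f` changes between `u` and `v`, `f` is small at `w` (local version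
of `st_ch`). -/
theorem HomS_ch {f : (ι → ℤ) → ℝ} {δ : ℝ} {u v w : ι → ℤ} (h1 : |f u - f w| ≤ δ)
    (h2 : |f v - f w| ≤ δ) (h : st F f u ≠ st F f v) : |f w| ≤ δ := by
  rw [abs_le] at h1 h2
  unfold st at h
  rw [abs_le]
  refine Wall_st h (fun h3 h4 => ⟨?_, ?_⟩) (fun h3 h4 => ⟨?_, ?_⟩) <;>
    linarith [h1.1, h1.2, h2.1, h2.2]

/-- Replacement of one wall, continuous version: no common zero in the shell. -/
theorem Phi_shell {z : ι → ℝ} {r1 r2 : ℝ} (hr : 0 < r1 ∧ r1 < r2)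
    {W1 W2 : List ((ι → ℝ) → ℝ)} {φ φ' : (ι → ℝ) → ℝ}
    (hD : Fintype.card ι = W1.length + 1 + W2.length)
    (hc : ∀ G ∈ φ :: φ' :: (W1 ++ W2), ContinuousOn G (Metric.closedBall z r2))
    (h : ∀ y ∈ Metric.closedBall z r2, r1 ≤ ‖y - z‖ → (∀ G ∈ W1 ++ W2, G y = 0) →
      min (φ y) (φ' y) ≤ 0 → 0 ≤ max (φ y) (φ' y) → False) {ρ : ℝ} (h1 : r1 < ρ) (h2 : ρ < r2) :
    ∀ᶠ M : ℕ in atTop, Phi (F := F) (blf M z ρ) 0 (fun _ => 1) ((W1 ++ φ :: W2).map (gr M)) =
      Phi (F := F) (blf M z ρ) 0 (fun _ => 1) ((W1 ++ φ' :: W2).map (gr M)) := by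
  obtain ⟨hr0, hr12⟩ := hr
  -- the shell
  set C : Set (ι → ℝ) := Metric.closedBall z r2 ∩ {y | r1 ≤ ‖y - z‖} with hC
  have hCc : IsCompact C := (isCompact_closedBall z r2).inter_right
    (isClosed_le continuous_const (continuous_id.sub continuous_const).norm)
  have hCs : C ⊆ Metric.closedBall z r2 := Set.inter_subset_left
  have hφ : ContinuousOn φ C := (hc φ List.mem_cons_self).mono hCs
  have hφ' : ContinuousOn φ' C :=
    (hc φ' (List.mem_cons_of_mem _ List.mem_cons_self)).mono hCs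
  have hW : ∀ G ∈ W1 ++ W2, ContinuousOn G C := fun G hG =>
    (hc G (List.mem_cons_of_mem _ (List.mem_cons_of_mem _ hG))).mono hCs
  obtain ⟨δ, hδ, hsep⟩ := cpt_list hCc (W1 ++ W2) hW
    (ψ := fun y => max (min (φ y) (φ' y)) (-max (φ y) (φ' y)))
    ((hφ.inf hφ').sup (hφ.sup hφ').neg) (fun y hy hz => by
      by_contra hn
      have hn' : max (min (φ y) (φ' y)) (-max (φ y) (φ' y)) ≤ 0 := not_lt.1 hn
      obtain ⟨h3, h4⟩ := max_le_iff.1 hn'
      exact h y hy.1 hy.2 hz h3 (by linarith))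
  set η : ℝ := min (ρ - r1) (r2 - ρ) / 2 with hη
  have hη0 : 0 < η := by
    have : 0 < min (ρ - r1) (r2 - ρ) := lt_min (by linarith) (by linarith)
    positivity
  have hη1 : 2 * η ≤ ρ - r1 := by
    have := min_le_left (ρ - r1) (r2 - ρ)
    linarith
  have hη2 : 2 * η ≤ r2 - ρ := by
    have := min_le_right (ρ - r1) (r2 - ρ)
    linarith
  filter_upwards [one_div_small hη0, unif_ball z r2 _ hc hδ] with M hM1 hM2
  obtain ⟨hM0, hMη⟩ := hM1
  obtain ⟨-, hunif⟩ := hM2
  rw [List.map_append, List.map_cons, List.map_append, List.map_cons]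
  unfold Phi
  rw [List.map_append, List.map_cons, List.map_append, List.map_cons]
  refine PhiH_replace (blf M z ρ) Lin_dep ?_ (fun _ _ _ => Lin_d _) ?_
  · simp only [List.length_map]
    omega
  intro s hs _ hG hne
  simp only [List.length_map] at hs hG hne
  set y : ι → ℝ := ps M (s 0) with hy
  -- far from the sphere there is nothing to prove
  by_cases hin : ‖y - z‖ ≤ ρ - η
  · left
    intro v hv
    rw [mem_blf hM0]
    have h3 := ps_near hM0 hv
    calc ‖ps M v - z‖ = ‖(ps M v - y) + (y - z)‖ := by rw [sub_add_sub_cancel]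
      _ ≤ ‖ps M v - y‖ + ‖y - z‖ := norm_add_le _ _
      _ ≤ ρ := by linarith
  by_cases hout : ρ + η < ‖y - z‖
  · right
    intro v hv hv'
    rw [mem_blf hM0] at hv'
    have h3 := ps_near hM0 hv
    have h4 : ‖y - z‖ ≤ ‖ps M v - y‖ + ‖ps M v - z‖ := by
      calc ‖y - z‖ = ‖(ps M v - z) - (ps M v - y)‖ := by rw [sub_sub_sub_cancel_left]
        _ ≤ ‖ps M v - z‖ + ‖ps M v - y‖ := norm_sub_le _ _
        _ = ‖ps M v - y‖ + ‖ps M v - z‖ := add_comm _ _
    linarith
  exfalso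
  push Not at hin hout
  have hball : ∀ i ≤ 0 + W1.length + W2.length, ‖ps M (s i) - z‖ ≤ r2 := by
    intro i hi
    have h3 := ps_near hM0 (hs.near hi (Nat.zero_le _))
    calc ‖ps M (s i) - z‖ = ‖(ps M (s i) - y) + (y - z)‖ := by rw [sub_add_sub_cancel]
      _ ≤ ‖ps M (s i) - y‖ + ‖y - z‖ := norm_add_le _ _
      _ ≤ r2 := by linarith
  have hvar : ∀ G ∈ φ :: φ' :: (W1 ++ W2), ∀ i ≤ 0 + W1.length + W2.length,
      |gr M G (s i) - gr M G (s 0)| ≤ δ := fun G hG' i hi =>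
    hunif _ _ (hs.near hi (Nat.zero_le _)) (hball i hi) (hball 0 (Nat.zero_le _)) G hG'
  have hyC : y ∈ C := by
    refine ⟨mem_closedBall_iff_norm.2 (hball 0 (Nat.zero_le _)), ?_⟩
    change r1 ≤ ‖y - z‖
    linarith
  have hsm : ∀ G ∈ W1 ++ W2, |G y| ≤ δ := by
    intro G hG'
    have hmem : st F (gr M G) ∈ (W1.map (gr M)).map (st F) ++ (W2.map (gr M)).map (st F) := by
      rw [← List.map_append, ← List.map_append]
      exact List.mem_map_of_mem (List.mem_map_of_mem hG')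
    obtain ⟨i, hi, j, hj, hij⟩ := hG _ hmem
    have hG2 : G ∈ φ :: φ' :: (W1 ++ W2) :=
      List.mem_cons_of_mem _ (List.mem_cons_of_mem _ hG')
    exact HomS_ch (hvar G hG2 i hi) (hvar G hG2 j hj) hij
  obtain ⟨i, hi, hii⟩ := hne
  obtain ⟨h5, h6⟩ := HomS_ne (hvar φ List.mem_cons_self i hi)
    (hvar φ' (List.mem_cons_of_mem _ List.mem_cons_self) i hi) hii
  have h7 : δ < max (min (φ y) (φ' y)) (-max (φ y) (φ' y)) := hsep y hyC hsm
  have h8 : max (min (φ y) (φ' y)) (-max (φ y) (φ' y)) ≤ δ :=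
    max_le h5 (by
      have h9 : -δ ≤ max (φ y) (φ' y) := h6
      linarith)
  linarith

/-- linear walls, continuous version -/
theorem Phi_rlin (F : Type*) [Field F] (c : Fin (Fintype.card ι) → ι → ℝ)
    (hc : LinearIndependent ℝ c) (z : ι → ℝ) {ρ : ℝ} (hρ : 0 < ρ) :
    ∀ᶠ M : ℕ in atTop, Phi (F := F) (blf M z ρ) 0 (fun _ => 1) ((rlin c z).map (gr M)) = 1 ∨
      Phi (F := F) (blf M z ρ) 0 (fun _ => 1) ((rlin c z).map (gr M)) = -1 := by
  obtain ⟨B, hB⟩ := Phi_lin F c hc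
  have hη : 0 < ρ / (|B| + 1) := div_pos hρ (by positivity)
  filter_upwards [one_div_small hη] with M hM
  obtain ⟨hM0, hMη⟩ := hM
  have hM' : (0 : ℝ) < M := Nat.cast_pos.2 hM0
  have hmap : ((rlin c z).map (gr M)).map (st F) =
      (lin c (fun i => (M : ℝ) * z i)).map (st F) := by
    rw [rlin, lin, List.map_ofFn, List.map_ofFn, List.map_ofFn]
    congr 1
    funext j
    simp only [Function.comp_apply]
    have e1 : gr M (fun y : ι → ℝ => ∑ i, c j i * (y i - z i)) =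
        fun v => (1 / (M : ℝ)) * ∑ i, c j i * ((v i : ℝ) - (M : ℝ) * z i) := by
      funext v
      unfold gr
      simp only [ps]
      rw [Finset.mul_sum]
      refine Finset.sum_congr rfl fun i _ => ?_
      field_simp
    rw [e1, st_mul (by positivity)]
  have hP : Phi (F := F) (blf M z ρ) 0 (fun _ => 1) ((rlin c z).map (gr M)) =
      Phi (F := F) (blf M z ρ) 0 (fun _ => 1) (lin c (fun i => (M : ℝ) * z i)) := by
    unfold Phi
    rw [hmap]
  rw [hP]
  refine hB (fun i => (M : ℝ) * z i) (blf M z ρ) fun v hv => ?_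
  rw [mem_blf hM0]
  refine (pi_norm_le_iff_of_nonneg hρ.le).2 fun i => ?_
  have e2 : (ps M v - z) i = ((v i : ℝ) - (M : ℝ) * z i) / M := by
    simp only [Pi.sub_apply, ps]
    field_simp
  rw [e2, Real.norm_eq_abs, abs_div, abs_of_pos hM', div_le_iff₀ hM']
  have h3 := hv i
  have h4 : B ≤ |B| + 1 := by linarith [le_abs_self B]
  rw [div_le_div_iff₀ hM' (by positivity)] at hMη
  linarith

end Pool.Agent.H21.TU
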