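import Pool.Agent.H21.TU.Int

/-!
# Project TU: walls
-/

set_option autoImplicit false

namespace Pool.Agent.H21.TU

variable {ι F : Type*} [Fintype ι] [DecidableEq ι] [Field F]

/-- cup product of the coboundaries of a list of functions on the vertices -/
def wH {V : Type*} : List (V → F) → K V F
  | [] => fun _ => 1
  | H :: L => cup 1 (c1 H) (wH L)

/-- the integral of `a` against `wH L` -/
noncomputable def PhiH (R : Finset (ι → ℤ)) (p : ℕ) (a : K (ι → ℤ) F)
    (L : List ((ι → ℤ) → F)) : F := Int R (cup p a (wH L))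

theorem Dep.wH {V : Type*} (L : List (V → F)) : Dep L.length (TU.wH L) := by
  induction L with
  | nil => intro s t _; rfl
  | cons H L ih =>
    have h := (Dep.c1 H).cup ih
    rw [List.length_cons, add_comm]
    exact h

theorem d_wH {V : Type*} (L : List (V → F)) : d L.length (wH L) = 0 := by
  induction L with
  | nil =>
    funext s
    simp [d, wH, Finset.sum_range_succ]
  | cons H L ih =>
    funext s
    rw [List.length_cons, add_comm L.length 1]
    have h := d_cup L.length (Dep.c1 H) (wH L) s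
    rw [d_c1, ih] at h
    rw [show wH (H :: L) = cup 1 (c1 H) (wH L) from rfl, h]
    simp [cup]

theorem Wall_one {V : Type*} (b : K V F) : cup 0 (fun _ => 1) b = b := by
  funext s
  unfold cup
  rw [sh_zero, one_mul]

theorem wH_append {V : Type*} (L L' : List (V → F)) :
    wH (L ++ L') = cup L.length (wH L) (wH L') := by
  induction L with
  | nil => exact (Wall_one (wH L')).symm
  | cons H L ih =>
    rw [List.cons_append, show wH (H :: (L ++ L')) = cup 1 (c1 H) (wH (L ++ L')) from rfl, ih,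
      cup_assoc, List.length_cons, add_comm L.length 1]
    rfl

/-- if the product does not vanish on `s`, all the functions change on `s` -/
theorem wH_ne {V : Type*} {L : List (V → F)} {s : ℕ → V} (h : wH L s ≠ 0) :
    ∀ G ∈ L, ∃ i < L.length, G (s (i + 1)) ≠ G (s i) := by
  induction L generalizing s with
  | nil => intro G hG; exact absurd hG List.not_mem_nil
  | cons H L ih =>
    have h1 : (H (s 1) - H (s 0)) * wH L (sh 1 s) ≠ 0 := h
    have h2 : H (s 1) - H (s 0) ≠ 0 := fun h0 => h1 (by rw [h0, zero_mul])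
    have h3 : wH L (sh 1 s) ≠ 0 := fun h0 => h1 (by rw [h0, mul_zero])
    intro G hG
    rcases List.mem_cons.1 hG with h4 | h4
    · refine ⟨0, by simp, ?_⟩
      rw [h4]
      exact fun h5 => h2 (by rw [h5, sub_self])
    · obtain ⟨i, hi, h5⟩ := ih h3 G h4
      exact ⟨i + 1, by simpa using hi, h5⟩

/-- a coboundary has integral zero -/
theorem PhiH_exact (R : Finset (ι → ℤ)) {p : ℕ} {a : K (ι → ℤ) F} (ha : Dep p a)
    {L : List ((ι → ℤ) → F)} (hl : Fintype.card ι = p + 1 + L.length)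
    (h : ∀ s : ℕ → ι → ℤ, Ch (p + L.length) s → a s ≠ 0 →
      (∀ G ∈ L, ∃ i ≤ p + L.length, ∃ j ≤ p + L.length, G (s i) ≠ G (s j)) →
      (∀ v, Near v (s 0) → v ∈ R) ∨ (∀ v, Near v (s 0) → v ∉ R)) :
    PhiH R (p + 1) (d p a) L = 0 := by
  have hw : Dep (p + L.length) (cup p a (wH L)) := ha.cup (Dep.wH L)
  have e1 : cup (p + 1) (d p a) (wH L) = d (p + L.length) (cup p a (wH L)) := by
    funext s
    rw [d_cup L.length ha (wH L) s, d_wH]
    simp [cup]
  unfold PhiH
  rw [e1]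
  refine Int_d (by omega) R hw fun s hs hne => ?_
  have h1 : a s * wH L (sh p s) ≠ 0 := hne
  have h2 : a s ≠ 0 := fun h0 => h1 (by rw [h0, zero_mul])
  have h3 : wH L (sh p s) ≠ 0 := fun h0 => h1 (by rw [h0, mul_zero])
  refine h s hs h2 fun G hG => ?_
  obtain ⟨i, hi, h4⟩ := wH_ne h3 G hG
  exact ⟨i + 1 + p, by omega, i + p, by omega, h4⟩

/-- replacement of one function -/
theorem PhiH_replace (R : Finset (ι → ℤ)) {p : ℕ} {a : K (ι → ℤ) F} (ha : Dep p a)
    {L1 L2 : List ((ι → ℤ) → F)} {H H' : (ι → ℤ) → F}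
    (hl : Fintype.card ι = p + L1.length + 1 + L2.length)
    (hcl : ∀ v ∈ R, ∀ π : Fin (Fintype.card ι) ≃ ι, d p a (kv v π) = 0)
    (h : ∀ s : ℕ → ι → ℤ, Ch (p + L1.length + L2.length) s → a s ≠ 0 →
      (∀ G ∈ L1 ++ L2, ∃ i ≤ p + L1.length + L2.length, ∃ j ≤ p + L1.length + L2.length,
        G (s i) ≠ G (s j)) →
      (∃ i ≤ p + L1.length + L2.length, H (s i) ≠ H' (s i)) →
      (∀ v, Near v (s 0) → v ∈ R) ∨ (∀ v, Near v (s 0) → v ∉ R)) :
    PhiH R p a (L1 ++ H :: L2) = PhiH R p a (L1 ++ H' :: L2) := by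
  set E : (ι → ℤ) → F := fun v => H v - H' v with hE
  set Z : K (ι → ℤ) F := cup 0 (c0 E) (wH L2) with hZ
  set Y : K (ι → ℤ) F := cup L1.length (wH L1) Z with hY
  set W : K (ι → ℤ) F := cup p a (cup L1.length (wH L1) (cup 1 (c1 E) (wH L2))) with hW
  have hZd : Dep L2.length Z := by
    have := (Dep.c0 E).cup (Dep.wH L2)
    rwa [zero_add] at this
  have hYd : Dep (L1.length + L2.length) Y := (Dep.wH L1).cup hZd
  have hwd : Dep (p + (L1.length + L2.length)) (cup p a Y) := ha.cup hYd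
  have eZ : d L2.length Z = cup 1 (c1 E) (wH L2) := by
    funext s
    have := d_cup L2.length (Dep.c0 E) (wH L2) s
    rw [zero_add, d_c0, d_wH] at this
    rw [hZ, this]
    simp [cup]
  have eY : ∀ s, d (L1.length + L2.length) Y s =
      (-1) ^ L1.length * cup L1.length (wH L1) (cup 1 (c1 E) (wH L2)) s := by
    intro s
    rw [hY, d_cup L2.length (Dep.wH L1) Z s, d_wH, eZ]
    simp [cup]
  have ew : ∀ s, d (p + (L1.length + L2.length)) (cup p a Y) s =
      cup (p + 1) (d p a) Y s + (-1) ^ (p + L1.length) * W s := by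
    intro s
    rw [d_cup (L1.length + L2.length) ha Y s, pow_add, hW]
    congr 1
    have : cup p a (d (L1.length + L2.length) Y) s = (-1) ^ L1.length *
        cup p a (cup L1.length (wH L1) (cup 1 (c1 E) (wH L2))) s := by
      change a s * d (L1.length + L2.length) Y (sh p s) = (-1) ^ L1.length *
        (a s * cup L1.length (wH L1) (cup 1 (c1 E) (wH L2)) (sh p s))
      rw [eY]
      ring
    rw [this]
    ring
  -- Stokes
  have hint : Int R (d (p + (L1.length + L2.length)) (cup p a Y)) = 0 := by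
    refine Int_d (by omega) R hwd fun s hs hne => ?_
    have h1 : a s * (wH L1 (sh p s) * (E (sh L1.length (sh p s) 0) *
        wH L2 (sh 0 (sh L1.length (sh p s))))) ≠ 0 := hne
    have h2 : a s ≠ 0 := fun h0 => h1 (by rw [h0, zero_mul])
    have h3 : wH L1 (sh p s) ≠ 0 := fun h0 => h1 (by rw [h0, zero_mul, mul_zero])
    have h4 : E (sh L1.length (sh p s) 0) ≠ 0 := fun h0 => h1 (by
      rw [h0, zero_mul, mul_zero, mul_zero])
    have h5 : wH L2 (sh 0 (sh L1.length (sh p s))) ≠ 0 := fun h0 => h1 (by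
      rw [h0, mul_zero, mul_zero, mul_zero])
    refine h s (hs.mono (by omega)) h2 (fun G hG => ?_) ⟨0 + L1.length + p, by omega, fun h0 =>
      h4 (sub_eq_zero.2 h0)⟩
    rcases List.mem_append.1 hG with hG | hG
    · obtain ⟨i, hi, h6⟩ := wH_ne h3 G hG
      exact ⟨i + 1 + p, by omega, i + p, by omega, h6⟩
    · obtain ⟨i, hi, h6⟩ := wH_ne h5 G hG
      exact ⟨i + 1 + 0 + L1.length + p, by omega, i + 0 + L1.length + p, by omega, h6⟩
  have hW0 : Int R W = 0 := by
    have e1 : Int R (d (p + (L1.length + L2.length)) (cup p a Y)) =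
        Int R (((-1 : F) ^ (p + L1.length)) • W) := by
      refine Int_congr R fun v hv π => ?_
      rw [ew, Pi.smul_apply, smul_eq_mul]
      have : cup (p + 1) (d p a) Y (kv v π) = 0 := by
        change d p a (kv v π) * Y (sh (p + 1) (kv v π)) = 0
        rw [hcl v hv π, zero_mul]
      rw [this, zero_add]
    rw [hint, Int_smul] at e1
    have e2 : ((-1 : F) ^ (p + L1.length)) ≠ 0 := pow_ne_zero _ (by simp)
    rcases mul_eq_zero.1 e1.symm with h0 | h0
    · exact absurd h0 e2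
    · exact h0
  have hsum : cup p a (wH (L1 ++ H :: L2)) = cup p a (wH (L1 ++ H' :: L2)) + W := by
    funext s
    rw [wH_append, wH_append, hW]
    change a s * (wH L1 (sh p s) * ((H (sh L1.length (sh p s) 1) - H (sh L1.length (sh p s) 0)) *
        wH L2 (sh 1 (sh L1.length (sh p s))))) =
      a s * (wH L1 (sh p s) * ((H' (sh L1.length (sh p s) 1) - H' (sh L1.length (sh p s) 0)) *
        wH L2 (sh 1 (sh L1.length (sh p s))))) +
      a s * (wH L1 (sh p s) * ((E (sh L1.length (sh p s) 1) - E (sh L1.length (sh p s) 0)) *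
        wH L2 (sh 1 (sh L1.length (sh p s)))))
    rw [hE]
    ring
  unfold PhiH
  rw [hsum, Int_add, hW0, add_zero]

open Classical in
/-- step function of the real function `f` on the vertices -/
noncomputable def st (F : Type*) [Field F] (f : (ι → ℤ) → ℝ) : (ι → ℤ) → F :=
  fun v => if 0 ≤ f v then 1 else 0

/-- the integral of `a` against the walls `l` -/
noncomputable def Phi (R : Finset (ι → ℤ)) (p : ℕ) (a : K (ι → ℤ) F)
    (l : List ((ι → ℤ) → ℝ)) : F := PhiH R p a (l.map (st F))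

/-- the two cases of different values of step functions -/
theorem Wall_st {x y : ℝ} {P : Prop} [Decidable (0 ≤ x)] [Decidable (0 ≤ y)]
    (h : (if 0 ≤ x then (1 : F) else 0) ≠ if 0 ≤ y then (1 : F) else 0)
    (h1 : 0 ≤ x → y < 0 → P) (h2 : x < 0 → 0 ≤ y → P) : P := by
  by_cases hx : 0 ≤ x
  · by_cases hy : 0 ≤ y
    · exact absurd (by rw [if_pos hx, if_pos hy]) h
    · exact h1 hx (not_le.1 hy)
  · by_cases hy : 0 ≤ y
    · exact h2 (not_le.1 hx) hy
    · exact absurd (by rw [if_neg hx, if_neg hy]) h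

/-- If the step functions of `f` and `f'` differ at `s i`, both functions are almost of opposite
sign at `s 0`. -/
theorem st_ne {f f' : (ι → ℤ) → ℝ} {δ : ℝ} (hf : ∀ v w, Near v w → |f v - f w| ≤ δ)
    (hf' : ∀ v w, Near v w → |f' v - f' w| ≤ δ) {v w : ι → ℤ} (hvw : Near v w)
    (h : st F f v ≠ st F f' v) : min (f w) (f' w) ≤ δ ∧ -δ ≤ max (f w) (f' w) := by
  have h1 := abs_le.1 (hf v w hvw)
  have h2 := abs_le.1 (hf' v w hvw)
  unfold st at h
  refine Wall_st h (fun h3 h4 => ⟨(min_le_right _ _).trans ?_, le_trans ?_ (le_max_left _ _)⟩)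
    (fun h3 h4 => ⟨(min_le_left _ _).trans ?_, le_trans ?_ (le_max_right _ _)⟩) <;> linarith [h1.1, h1.2, h2.1, h2.2]

/-- If the step function of `f` changes between near vertices, `f` is small. -/
theorem st_ch {f : (ι → ℤ) → ℝ} {δ : ℝ} (hf : ∀ v w, Near v w → |f v - f w| ≤ δ)
    {u v w : ι → ℤ} (huw : Near u w) (hvw : Near v w) (h : st F f u ≠ st F f v) : |f w| ≤ δ := by
  have h1 := abs_le.1 (hf u w huw)
  have h2 := abs_le.1 (hf v w hvw)
  unfold st at h
  rw [abs_le]
  refine Wall_st h (fun h3 h4 => ⟨?_, ?_⟩) (fun h3 h4 => ⟨?_, ?_⟩) <;>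
    linarith [h1.1, h1.2, h2.1, h2.2]

/-- a coboundary has integral zero -/
theorem Phi_exact (R : Finset (ι → ℤ)) {p : ℕ} {a : K (ι → ℤ) F} (ha : Dep p a)
    {l : List ((ι → ℤ) → ℝ)} (hl : Fintype.card ι = p + 1 + l.length) {δ : ℝ}
    (hvar : ∀ g ∈ l, ∀ v w, Near v w → |g v - g w| ≤ δ)
    (h : ∀ s : ℕ → ι → ℤ, Ch (p + l.length) s → a s ≠ 0 → (∀ g ∈ l, |g (s 0)| ≤ δ) →
      (∀ v, Near v (s 0) → v ∈ R) ∨ (∀ v, Near v (s 0) → v ∉ R)) :
    Phi R (p + 1) (d p a) l = 0 := by
  unfold Phi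
  refine PhiH_exact R ha (by rw [List.length_map]; exact hl) fun s hs hne hG => ?_
  rw [List.length_map] at hs hG
  refine h s hs hne fun g hg => ?_
  obtain ⟨i, hi, j, hj, hij⟩ := hG (st F g) (List.mem_map_of_mem hg)
  exact st_ch (hvar g hg) (hs.near hi (Nat.zero_le _)) (hs.near hj (Nat.zero_le _)) hij

/-- replacement of one wall -/
theorem Phi_replace (R : Finset (ι → ℤ)) {p : ℕ} {a : K (ι → ℤ) F} (ha : Dep p a)
    {l1 l2 : List ((ι → ℤ) → ℝ)} {f f' : (ι → ℤ) → ℝ}
    (hl : Fintype.card ι = p + l1.length + 1 + l2.length) {δ : ℝ}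
    (hvar : ∀ g ∈ f :: f' :: (l1 ++ l2), ∀ v w, Near v w → |g v - g w| ≤ δ)
    (hcl : ∀ v ∈ R, ∀ π : Fin (Fintype.card ι) ≃ ι, d p a (kv v π) = 0)
    (h : ∀ s : ℕ → ι → ℤ, Ch (p + l1.length + l2.length) s → a s ≠ 0 →
      (∀ g ∈ l1 ++ l2, |g (s 0)| ≤ δ) → min (f (s 0)) (f' (s 0)) ≤ δ →
      -δ ≤ max (f (s 0)) (f' (s 0)) →
      (∀ v, Near v (s 0) → v ∈ R) ∨ (∀ v, Near v (s 0) → v ∉ R)) :
    Phi R p a (l1 ++ f :: l2) = Phi R p a (l1 ++ f' :: l2) := by
  unfold Phi
  rw [List.map_append, List.map_append, List.map_cons, List.map_cons]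
  refine PhiH_replace R ha (by rw [List.length_map, List.length_map]; exact hl) hcl
    fun s hs hne hG hHH => ?_
  rw [List.length_map, List.length_map] at hs hG hHH
  have hf : ∀ v w, Near v w → |f v - f w| ≤ δ := hvar f List.mem_cons_self
  have hf' : ∀ v w, Near v w → |f' v - f' w| ≤ δ :=
    hvar f' (List.mem_cons_of_mem _ List.mem_cons_self)
  obtain ⟨i, hi, hHi⟩ := hHH
  obtain ⟨h1, h2⟩ := st_ne hf hf' (hs.near hi (Nat.zero_le _)) hHi
  refine h s hs hne (fun g hg => ?_) h1 h2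
  have hg' : st F g ∈ l1.map (st F) ++ l2.map (st F) := by
    rw [← List.map_append]
    exact List.mem_map_of_mem hg
  obtain ⟨i, hi, j, hj, hij⟩ := hG (st F g) hg'
  exact st_ch (hvar g (List.mem_cons_of_mem _ (List.mem_cons_of_mem _ hg)))
    (hs.near hi (Nat.zero_le _)) (hs.near hj (Nat.zero_le _)) hij

/-- `Phi` does not see the part of `a` away from the walls. -/
theorem Phi_congr (R : Finset (ι → ℤ)) {p : ℕ} {a a' : K (ι → ℤ) F} {l : List ((ι → ℤ) → ℝ)}
    (hl : Fintype.card ι = p + l.length) {δ : ℝ}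
    (hvar : ∀ g ∈ l, ∀ v w, Near v w → |g v - g w| ≤ δ)
    (h : ∀ v ∈ R, ∀ π : Fin (Fintype.card ι) ≃ ι, (∀ g ∈ l, |g v| ≤ δ) →
      a (kv v π) = a' (kv v π)) :
    Phi R p a l = Phi R p a' l := by
  unfold Phi PhiH
  refine Int_congr R fun v hv π => ?_
  change a (kv v π) * wH (l.map (st F)) (sh p (kv v π)) =
    a' (kv v π) * wH (l.map (st F)) (sh p (kv v π))
  by_cases h0 : wH (l.map (st F)) (sh p (kv v π)) = 0
  · rw [h0, mul_zero, mul_zero]
  · rw [h v hv π fun g hg => ?_]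
    obtain ⟨i, hi, h1⟩ := wH_ne h0 (st F g) (List.mem_map_of_mem hg)
    have hn : ∀ k, Near (kv v π k) v := fun k => by
      have := (ch_kv v π k).near (i := k) (j := 0) le_rfl (Nat.zero_le _)
      rwa [kv_zero] at this
    exact st_ch (hvar g hg) (hn _) (hn _) h1

theorem Phi_add (R : Finset (ι → ℤ)) (p : ℕ) (a a' : K (ι → ℤ) F) (l : List ((ι → ℤ) → ℝ)) :
    Phi R p (a + a') l = Phi R p a l + Phi R p a' l := by
  unfold Phi PhiH
  rw [← Int_add]
  congr 1
  funext s
  simp only [cup, Pi.add_apply]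
  ring

theorem Phi_smul (R : Finset (ι → ℤ)) (p : ℕ) (t : F) (a : K (ι → ℤ) F)
    (l : List ((ι → ℤ) → ℝ)) : Phi R p (t • a) l = t * Phi R p a l := by
  unfold Phi PhiH
  rw [← Int_smul]
  congr 1
  funext s
  simp only [cup, Pi.smul_apply, smul_eq_mul]
  ring

/-- two lists of walls: the first one as a cochain -/
theorem Phi_wH (R : Finset (ι → ℤ)) (l l' : List ((ι → ℤ) → ℝ)) :
    Phi R l.length (wH (l.map (st F))) l' = Phi (F := F) R 0 (fun _ => 1) (l ++ l') := by
  unfold Phi PhiH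
  rw [Wall_one, List.map_append, wH_append, List.length_map]

end Pool.Agent.H21.TU
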