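import Pool.Agent.H21.TU.Loc
import Pool.Agent.H21.TU.Wall

/-!
# Project TU: walls give a class in degree `b`, discrete version
-/

set_option autoImplicit false

namespace Pool.Agent.H21.TU

open Pool.Agent.H47.ST (Co Simp In dd dX cut co sgn HR tr Inv HK RK)

variable {ι F : Type*} [Fintype ι] [DecidableEq ι] [Field F]

/-- the primitive of the difference of two products of walls -/
noncomputable def prim {V : Type*} (L1 L2 : List (V → F)) (H H' : V → F) : K V F :=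
  (-1 : F) ^ L1.length • cup L1.length (wH L1) (cup 0 (c0 fun v => H v - H' v) (wH L2))

theorem Dep.prim {V : Type*} (L1 L2 : List (V → F)) (H H' : V → F) :
    Dep (L1.length + L2.length) (TU.prim L1 L2 H H') := by
  have hZd : Dep L2.length (TU.cup 0 (TU.c0 fun v => H v - H' v) (TU.wH L2)) := by
    have := (Dep.c0 fun v => H v - H' v).cup (Dep.wH L2)
    rwa [zero_add] at this
  have hYd := (Dep.wH L1).cup hZd
  intro s t hst
  unfold TU.prim
  rw [Pi.smul_apply, Pi.smul_apply, hYd s t hst]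

theorem d_smul {V : Type*} (p : ℕ) (t : F) (c : K V F) : d p (t • c) = t • d p c := by
  funext s
  rw [Pi.smul_apply, smul_eq_mul]
  unfold d
  rw [Finset.mul_sum]
  refine Finset.sum_congr rfl fun i _ => ?_
  rw [Pi.smul_apply, smul_eq_mul]
  ring

theorem d_prim {V : Type*} (L1 L2 : List (V → F)) (H H' : V → F) :
    d (L1.length + L2.length) (prim L1 L2 H H') = wH (L1 ++ H :: L2) - wH (L1 ++ H' :: L2) := by
  set E : V → F := fun v => H v - H' v with hE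
  have eZ : d L2.length (cup 0 (c0 E) (wH L2)) = cup 1 (c1 E) (wH L2) := by
    funext s
    have := d_cup L2.length (Dep.c0 E) (wH L2) s
    rw [zero_add, d_c0, d_wH] at this
    rw [this]
    simp [cup]
  funext s
  unfold prim
  rw [d_smul, Pi.smul_apply, smul_eq_mul, ← hE, d_cup L2.length (Dep.wH L1), d_wH, eZ,
    Pi.sub_apply, wH_append, wH_append]
  have e2 : ((-1 : F) ^ L1.length) * ((-1) ^ L1.length) = 1 := by
    rw [← mul_pow]; simp
  change (-1 : F) ^ L1.length * ((0 : K V F) s * cup 0 (c0 E) (wH L2) (sh (L1.length + 1) s) +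
    (-1) ^ L1.length * (wH L1 s * ((E (sh L1.length s 1) - E (sh L1.length s 0)) *
      wH L2 (sh 1 (sh L1.length s))))) = wH L1 s * ((H (sh L1.length s 1) - H (sh L1.length s 0)) *
      wH L2 (sh 1 (sh L1.length s))) - wH L1 s * ((H' (sh L1.length s 1) - H' (sh L1.length s 0)) *
      wH L2 (sh 1 (sh L1.length s)))
  rw [hE, Pi.zero_apply, zero_mul, zero_add, ← mul_assoc, e2, one_mul]
  ring

theorem hom_disc {L : AddSubgroup (ι → ℤ)} {A1 A2 A3 B : Set (ι → ℤ)} (R : Finset (ι → ℤ))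
    (hA1 : Inv L A1) (hA2 : Inv L A2) (hA3 : Inv L A3) (h12 : A1 ⊆ A2) (h23 : A2 ⊆ A3)
    (hs : Sepd L B) {L1 L2 Kl : List ((ι → ℤ) → F)} {H H' : (ι → ℤ) → F} {b : ℕ}
    (hb : L1.length + L2.length = b) (hD : Fintype.card ι = b + 1 + Kl.length)
    (hE : ∀ s : ℕ → ι → ℤ, Ch b s → (∀ i ≤ b, s i ∈ A3 ∧ s i ∈ B) → wH L1 s ≠ 0 →
      wH L2 (sh L1.length s) ≠ 0 → H (s L1.length) ≠ H' (s L1.length) →
      (∃ i ≤ b, s i ∉ A1) ∧ ∀ w, Near w (s 0) → w ∈ B)
    (hO : ∀ s : ℕ → ι → ℤ, Ch (b + 1) s → (∀ i ≤ b + 1, s i ∈ A3 ∧ s i ∈ B) →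
      wH (L1 ++ H :: L2) s ≠ 0 → ∃ i ≤ b + 1, s i ∉ A2)
    (hO' : ∀ s : ℕ → ι → ℤ, Ch (b + 1) s → (∀ i ≤ b + 1, s i ∈ A3 ∧ s i ∈ B) →
      wH (L1 ++ H' :: L2) s = 0)
    (hK : ∀ s : ℕ → ι → ℤ, Ch (b + Kl.length) s →
      (∀ G ∈ Kl, ∃ i ≤ b + Kl.length, ∃ j ≤ b + Kl.length, G (s i) ≠ G (s j)) →
      (∃ v ∈ R, Near v (s 0)) → (∃ v, v ∉ R ∧ Near v (s 0)) → ∀ i ≤ b, s i ∈ A2)
    (hK3 : ∀ v ∈ R, ∀ π : Fin (Fintype.card ι) ≃ ι,
      (∀ G ∈ Kl, ∃ i ≤ Fintype.card ι, ∃ j ≤ Fintype.card ι, G (kv v π i) ≠ G (kv v π j)) →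
      ∀ i ≤ b + 1, kv v π i ∈ A3 ∧ kv v π i ∈ B)
    (hphi : PhiH R (b + 1) (wH (L1 ++ H :: L2)) Kl ≠ 0) : ¬ HR F L A2 A1 b 0 := by
  classical
  intro hHR
  set W : K (ι → ℤ) F := wH (L1 ++ H :: L2) with hW
  have hWd : Dep (b + 1) W := by
    have := Dep.wH (L1 ++ H :: L2)
    rwa [show (L1 ++ H :: L2).length = b + 1 by simp; omega] at this
  set E : K (ι → ℤ) F := prim L1 L2 H H' with hEdef
  have hEd : Dep b E := by
    have := Dep.prim L1 L2 H H'
    rwa [hb] at this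
  have hEne : ∀ s, E s ≠ 0 → wH L1 s ≠ 0 ∧ wH L2 (sh L1.length s) ≠ 0 ∧
      H (s L1.length) ≠ H' (s L1.length) := by
    intro s h0
    have h1 : (-1 : F) ^ L1.length * (wH L1 s * ((H (sh L1.length s 0) - H' (sh L1.length s 0)) *
        wH L2 (sh 0 (sh L1.length s)))) ≠ 0 := h0
    rw [sh_zero] at h1
    have h2 := right_ne_zero_of_mul h1
    have h3 := right_ne_zero_of_mul h2
    refine ⟨left_ne_zero_of_mul h2, right_ne_zero_of_mul h3, fun h4 => ?_⟩
    refine left_ne_zero_of_mul h3 ?_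
    simp only [sh, zero_add]
    rw [h4, sub_self]
  -- the cochains
  set x0 : Co ι F := lc L A3 B (b + 1) W with hx0
  set y0 : Co ι F := lc L A3 B b E with hy0
  have hx0m : x0 ∈ co (F := F) L A3 A2 (b + 2) :=
    lc_mem hA3 hA2 hs fun s _ h2 h3 h4 => hO s h2 h3 h4
  have hy0m : y0 ∈ co (F := F) L A3 A1 (b + 1) :=
    lc_mem hA3 hA1 hs fun s _ h2 h3 h4 =>
      (hE s h2 h3 (hEne s h4).1 (hEne s h4).2.1 (hEne s h4).2.2).1
  have hdy : dX A3 y0 = x0 := by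
    rw [hy0, lc_dX hA3 hs hEd fun s _ h2 h3 h4 =>
      (hE s h2 h3 (hEne s h4).1 (hEne s h4).2.1 (hEne s h4).2.2).2]
    have e1 : d b E = wH (L1 ++ H :: L2) - wH (L1 ++ H' :: L2) := by
      rw [← hb, hEdef, d_prim]
    rw [e1, lc_sub, lc_zero hA3 hs (c := wH (L1 ++ H' :: L2)) fun s _ h2 h3 => hO' s h2 h3,
      sub_zero]
  -- the exact sequence of the triple
  obtain ⟨ℓ, hℓ⟩ := Pool.Agent.H47.ST.HR.rel hA3 hA2 h12 h23 hHR
  obtain ⟨y', hy', hz⟩ := hℓ y0 hy0m (by rw [hdy]; exact hx0m) (Subsingleton.elim _ _)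
  set ζ : Co ι F := y0 - dX A3 y' with hζ
  have hdζ : dX A3 ζ = x0 := by
    rw [hζ, map_sub, hdy, Pool.Agent.H47.ST.dX_dX, sub_zero]
  -- detection
  have h0 : PhiH R (b + 1) (d b (hat b ζ)) Kl = 0 := by
    refine PhiH_exact R (Dep.hat b ζ) hD fun s hc hne hG => ?_
    by_contra hcon
    push Not at hcon
    obtain ⟨⟨v, hv, hv'⟩, ⟨w, hw, hw'⟩⟩ := hcon
    have h1 := hK s hc hG ⟨w, hw', hw⟩ ⟨v, hv', hv⟩
    unfold hat at hne
    have h2 : ζ ((Finset.range (b + 1)).image s) ≠ 0 := by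
      intro h3
      apply hne
      split_ifs
      · exact h3
      · rfl
    obtain ⟨-, h4, -⟩ := hz.2 _ h2
    refine h4 fun u hu => ?_
    obtain ⟨i, hi, rfl⟩ := Finset.mem_image.1 hu
    exact h1 i (by rw [Finset.mem_range] at hi; omega)
  have h1 : PhiH R (b + 1) (d b (hat b ζ)) Kl = PhiH R (b + 1) W Kl := by
    unfold PhiH
    refine Int_congr R fun v hv π => ?_
    change d b (hat b ζ) (kv v π) * wH Kl (sh (b + 1) (kv v π)) =
      W (kv v π) * wH Kl (sh (b + 1) (kv v π))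
    by_cases hw : wH Kl (sh (b + 1) (kv v π)) = 0
    · rw [hw, mul_zero, mul_zero]
    · congr 1
      have h2 := hK3 v hv π fun G hG => by
        obtain ⟨i, hi, h3⟩ := wH_ne hw G hG
        exact ⟨i + 1 + (b + 1), by omega, i + (b + 1), by omega, h3⟩
      have h3 : ∀ i < b + 1, kv v π i < kv v π (i + 1) := fun i hi => kv_lt v π (by omega)
      rw [d_hat_kv v π (by omega), hat_kv v π (by omega)]
      obtain ⟨h4, h5, h6⟩ := en_image (p := b + 1) h3 (ch_kv v π (b + 1))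
      have h7 : In A3 ((Finset.range (b + 1 + 1)).image (kv v π)) := ⟨h4, fun u hu => by
        obtain ⟨i, hi, rfl⟩ := Finset.mem_image.1 hu
        exact (h2 i (by rw [Finset.mem_range] at hi; omega)).1⟩
      have h8 : dX A3 ζ ((Finset.range (b + 1 + 1)).image (kv v π)) =
          dd ζ ((Finset.range (b + 1 + 1)).image (kv v π)) := by
        rw [Pool.Agent.H47.ST.dX_apply, if_pos h7, Pool.Agent.H47.ST.dd_apply]
      rw [← h8, hdζ, hx0]
      exact lc_apply hs hWd h3 (ch_kv v π (b + 1)) h2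
  exact hphi (h1 ▸ h0)

end Pool.Agent.H21.TU
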