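import Pool.Agent.H21.TU.HomS
import Pool.Agent.H21.TU.HomD

/-!
# Project TU: walls give a class in the degree below the bottom degree
-/

set_option autoImplicit false

namespace Pool.Agent.H21.TU

open Filter Topology
open Pool.Agent.H47.ST (Co Simp In dd dX cut co sgn HR Lv lam ps rl PerL tr Inv)

variable {ι F : Type*} [Fintype ι] [DecidableEq ι] [Field F]

/-- The geometric data: walls `G ∈ W1 ++ [φ] ++ W2`, moved wall `φ'`, detecting walls `Kw`. -/
structure Geo (L : AddSubgroup (ι → ℤ)) (q Q f : (ι → ℝ) → ℝ) (R a : ℝ) (z : ι → ℝ)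
    (κ α ε lo ρ0 ρ1 ρ2 : ℝ) (W1 W2 Kw : List ((ι → ℝ) → ℝ)) (φ φ' : (ι → ℝ) → ℝ) : Prop where
  qc : Continuous q
  Qc : Continuous Q
  fc : Continuous f
  qp : PerL L q
  Qp : PerL L Q
  fp : PerL L f
  ρ : 0 < ρ1 ∧ ρ1 < ρ0 ∧ ρ0 < 1 / 4 ∧ 0 < ρ2 ∧ ρ2 < ρ1
  lev : lo < κ - ε ∧ 0 < ε ∧ 0 < α
  cont : ∀ G ∈ φ :: φ' :: (W1 ++ W2 ++ Kw), ContinuousOn G (Metric.closedBall z ρ0)
  inn : ∀ y ∈ Metric.closedBall z ρ0, q y < R ∧ -a < Q y
  wedge : ∀ y ∈ Metric.closedBall z ρ0, (∀ G ∈ W1 ++ W2, G y = 0) → min (φ y) (φ' y) ≤ 0 →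
    0 ≤ max (φ y) (φ' y) → lo < f y ∧ (ρ1 ≤ ‖y - z‖ → κ + α < f y)
  wall : ∀ y ∈ Metric.closedBall z ρ0, (∀ G ∈ W1 ++ W2, G y = 0) → φ y = 0 → κ - ε < f y
  moved : ∀ y ∈ Metric.closedBall z ρ0, (∀ G ∈ W1 ++ W2, G y = 0) → φ' y = 0 → κ + α < f y
  det : ∀ y ∈ Metric.closedBall z ρ2, (∀ k ∈ Kw, k y = 0) →
    f y < κ + α ∧ (ρ2 / 2 ≤ ‖y - z‖ → f y < κ - ε)

theorem Hom_sepd {L : AddSubgroup (ι → ℤ)} {M : ℕ} (hM : 0 < M) {z : ι → ℝ} {ρ : ℝ}
    (hρ : ρ < 1 / 4) : Sepd (lam L M) (bl M z ρ) := by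
  rintro l ⟨a, ha, rfl⟩ v hv hv'
  have h1 : ‖ps M v - z‖ ≤ ρ := hv
  have h2 : ‖ps M (v + (M : ℤ) • a) - z‖ ≤ ρ := hv'
  rw [Pool.Agent.H47.ST.Fine_ps_add hM] at h2
  have h3 : ‖rl a‖ ≤ 2 * ρ := by
    have h4 : rl a = (ps M v + rl a - z) - (ps M v - z) := by abel
    rw [h4]
    calc _ ≤ ‖ps M v + rl a - z‖ + ‖ps M v - z‖ := norm_sub_le _ _
      _ ≤ 2 * ρ := by linarith
  have h5 : a = 0 := by
    funext i
    by_contra h6
    have h7 : (1 : ℤ) ≤ |a i| := Int.one_le_abs h6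
    have h8 : ((1 : ℤ) : ℝ) ≤ ((|a i| : ℤ) : ℝ) := Int.cast_le.2 h7
    have h9 := norm_le_pi_norm (rl a) i
    rw [Real.norm_eq_abs] at h9
    simp only [rl] at h9
    rw [← Int.cast_abs] at h9
    push_cast at h8 h9
    linarith
  rw [h5, smul_zero]

/-- If the step function of `f` changes between two vertices, `f` is small at a vertex `w` where it
does not differ much from the values at both. -/
theorem Hom_st {f : (ι → ℤ) → ℝ} {δ : ℝ} {u v w : ι → ℤ} (hu : |f u - f w| ≤ δ)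
    (hv : |f v - f w| ≤ δ) (h : st F f u ≠ st F f v) : |f w| ≤ δ := by
  rw [abs_le] at hu hv
  rw [abs_le]
  unfold st at h
  refine Wall_st h (fun h1 h2 => ?_) (fun h1 h2 => ?_)
  · constructor <;> linarith
  · constructor <;> linarith

/-- **Walls give a class in degree `b₀ - 1`.** -/
theorem geo_HR {L : AddSubgroup (ι → ℤ)} {q Q f : (ι → ℝ) → ℝ} {R a : ℝ} {z : ι → ℝ}
    {κ α ε lo ρ0 ρ1 ρ2 : ℝ} {W1 W2 Kw : List ((ι → ℝ) → ℝ)} {φ φ' : (ι → ℝ) → ℝ}
    (h : Geo L q Q f R a z κ α ε lo ρ0 ρ1 ρ2 W1 W2 Kw φ φ') {b : ℕ}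
    (hb : W1.length + W2.length = b)
    (hD : Fintype.card ι = b + 1 + Kw.length)
    (hphi : ∀ᶠ M : ℕ in atTop, Phi (F := F) (blf M z (3 * ρ2 / 4)) 0 (fun _ => 1)
      ((W1 ++ φ :: W2 ++ Kw).map (gr M)) ≠ 0) :
    ∀ᶠ M : ℕ in atTop, ¬ HR F (lam L M) (Lv q Q f R a (κ - ε) M) (Lv q Q f R a lo M) b 0 := by
  classical
  obtain ⟨hr1, hr10, hr0, hr2, hr21⟩ := h.ρ
  obtain ⟨hl1, hl2, hl3⟩ := h.lev
  have hc1 : ∀ G ∈ W1 ++ W2, ContinuousOn G (Metric.closedBall z ρ0) := fun G hG =>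
    h.cont G (by simp only [List.mem_cons, List.mem_append] at hG ⊢; tauto)
  have hcφ : ContinuousOn φ (Metric.closedBall z ρ0) := h.cont φ (by simp)
  have hcφ' : ContinuousOn φ' (Metric.closedBall z ρ0) := h.cont φ' (by simp)
  have hcK : ∀ G ∈ Kw, ContinuousOn G (Metric.closedBall z ρ0) := fun G hG =>
    h.cont G (by simp only [List.mem_cons, List.mem_append]; tauto)
  have hcomp := isCompact_closedBall z ρ0
  have hcomp2 := isCompact_closedBall z ρ2
  have hsub2 : Metric.closedBall z ρ2 ⊆ Metric.closedBall z ρ0 :=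
    Metric.closedBall_subset_closedBall (by linarith)
  have hsh : ∀ r : ℝ, IsClosed {y : ι → ℝ | r ≤ ‖y - z‖} := fun r =>
    isClosed_le continuous_const (continuous_id.sub continuous_const).norm
  have hcf : ∀ c : ℝ, ∀ C : Set (ι → ℝ), ContinuousOn (fun y => f y - c) C := fun c C =>
    (h.fc.sub continuous_const).continuousOn
  have hcf' : ∀ c : ℝ, ∀ C : Set (ι → ℝ), ContinuousOn (fun y => c - f y) C := fun c C =>
    (continuous_const.sub h.fc).continuousOn
  -- the wedge as a function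
  set wg : (ι → ℝ) → ℝ := fun y => max (min (φ y) (φ' y)) 0 + max (-max (φ y) (φ' y)) 0 with hwg
  have hwgc : ContinuousOn wg (Metric.closedBall z ρ0) :=
    ((hcφ.inf hcφ').sup continuousOn_const).add ((hcφ.sup hcφ').neg.sup continuousOn_const)
  have hwg0 : ∀ y, wg y = 0 → min (φ y) (φ' y) ≤ 0 ∧ 0 ≤ max (φ y) (φ' y) := by
    intro y hy
    have h1 : (0 : ℝ) ≤ max (min (φ y) (φ' y)) 0 := le_max_right _ _
    have h2 : (0 : ℝ) ≤ max (-max (φ y) (φ' y)) 0 := le_max_right _ _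
    have h3 : max (min (φ y) (φ' y)) 0 + max (-max (φ y) (φ' y)) 0 = 0 := hy
    have h4 : max (min (φ y) (φ' y)) 0 = 0 := by linarith
    have h5 : max (-max (φ y) (φ' y)) 0 = 0 := by linarith
    have h6 := le_max_left (min (φ y) (φ' y)) 0
    have h7 := le_max_left (-max (φ y) (φ' y)) 0
    exact ⟨by linarith, by linarith⟩
  have hwg1 : ∀ y, min (φ y) (φ' y) ≤ 0 → 0 ≤ max (φ y) (φ' y) → wg y = 0 := by
    intro y h1 h2
    change max (min (φ y) (φ' y)) 0 + max (-max (φ y) (φ' y)) 0 = 0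
    rw [max_eq_right h1, max_eq_right (by linarith), add_zero]
  -- compactness
  obtain ⟨δ1, hδ1, hK1⟩ := cpt_list hcomp (wg :: (W1 ++ W2))
    (fun G hG => by rcases List.mem_cons.1 hG with rfl | hG; exacts [hwgc, hc1 G hG])
    (hcf lo _) (fun y hy hG => by
      have h1 := hwg0 y (hG wg List.mem_cons_self)
      have h2 := (h.wedge y hy (fun G hG' => hG G (List.mem_cons_of_mem _ hG')) h1.1 h1.2).1
      linarith)
  obtain ⟨δ2, hδ2, hK2⟩ := cpt_list (hcomp.inter_right (hsh ρ1)) (wg :: (W1 ++ W2))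
    (fun G hG => by
      rcases List.mem_cons.1 hG with rfl | hG
      exacts [hwgc.mono Set.inter_subset_left, (hc1 G hG).mono Set.inter_subset_left])
    (hcf (κ + α) _) (fun y hy hG => by
      have h1 := hwg0 y (hG wg List.mem_cons_self)
      have h2 := (h.wedge y hy.1 (fun G hG' => hG G (List.mem_cons_of_mem _ hG')) h1.1 h1.2).2 hy.2
      linarith)
  obtain ⟨δ3, hδ3, hK3⟩ := cpt_list hcomp (φ :: (W1 ++ W2))
    (fun G hG => by rcases List.mem_cons.1 hG with rfl | hG; exacts [hcφ, hc1 G hG])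
    (hcf (κ - ε) _) (fun y hy hG => by
      have h2 := h.wall y hy (fun G hG' => hG G (List.mem_cons_of_mem _ hG'))
        (hG φ List.mem_cons_self)
      linarith)
  obtain ⟨δ4, hδ4, hK4⟩ := cpt_list hcomp (φ' :: (W1 ++ W2))
    (fun G hG => by rcases List.mem_cons.1 hG with rfl | hG; exacts [hcφ', hc1 G hG])
    (hcf (κ + α) _) (fun y hy hG => by
      have h2 := h.moved y hy (fun G hG' => hG G (List.mem_cons_of_mem _ hG'))
        (hG φ' List.mem_cons_self)
      linarith)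
  obtain ⟨δ5, hδ5, hK5⟩ := cpt_list hcomp2 Kw (fun G hG => (hcK G hG).mono hsub2)
    (hcf' (κ + α) _) (fun y hy hG => by
      have h2 := (h.det y hy hG).1
      linarith)
  obtain ⟨δ6, hδ6, hK6⟩ := cpt_list (hcomp2.inter_right (hsh (ρ2 / 2))) Kw
    (fun G hG => (hcK G hG).mono (Set.inter_subset_left.trans hsub2))
    (hcf' (κ - ε) _) (fun y hy hG => by
      have h2 := (h.det y hy.1 hG).2 hy.2
      linarith)
  set δ : ℝ := min (min δ1 δ2) (min (min δ3 δ4) (min δ5 δ6)) with hδdef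
  have hδ : 0 < δ := lt_min (lt_min hδ1 hδ2) (lt_min (lt_min hδ3 hδ4) (lt_min hδ5 hδ6))
  have d1 : δ ≤ δ1 := (min_le_left _ _).trans (min_le_left _ _)
  have d2 : δ ≤ δ2 := (min_le_left _ _).trans (min_le_right _ _)
  have d3 : δ ≤ δ3 := (min_le_right _ _).trans ((min_le_left _ _).trans (min_le_left _ _))
  have d4 : δ ≤ δ4 := (min_le_right _ _).trans ((min_le_left _ _).trans (min_le_right _ _))
  have d5 : δ ≤ δ5 := (min_le_right _ _).trans ((min_le_right _ _).trans (min_le_left _ _))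
  have d6 : δ ≤ δ6 := (min_le_right _ _).trans ((min_le_right _ _).trans (min_le_right _ _))
  filter_upwards [unif_ball z ρ0 (φ :: φ' :: (W1 ++ W2 ++ Kw)) h.cont hδ, hphi,
    one_div_small (η := (ρ0 - ρ1) / 4) (by linarith), one_div_small (η := ρ2 / 16) (by linarith)]
    with M hun hph hM1 hM2
  obtain ⟨hM, hun⟩ := hun
  have hM1' := hM1.2
  have hM2' := hM2.2
  -- membership in the level sets
  have hin : ∀ {v : ι → ℤ} {c : ℝ}, ‖ps M v - z‖ ≤ ρ0 →
      (v ∈ Lv q Q f R a c M ↔ f (ps M v) ≤ c) := by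
    intro v c hv
    have h1 := h.inn (ps M v) (mem_closedBall_iff_norm.2 hv)
    constructor
    · rintro ⟨-, h2 | h2⟩
      · exact absurd h2 (not_le.2 h1.2)
      · exact h2
    · exact fun h2 => ⟨h1.1.le, Or.inr h2⟩
  have hw1 : ∀ G ∈ W1 ++ W2, G ∈ φ :: φ' :: (W1 ++ W2 ++ Kw) := fun G hG => by
    simp only [List.mem_cons, List.mem_append] at hG ⊢; tauto
  have hwK : ∀ G ∈ Kw, G ∈ φ :: φ' :: (W1 ++ W2 ++ Kw) := fun G hG => by
    simp only [List.mem_cons, List.mem_append] at hG ⊢; tauto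
  -- a wall which changes on a small simplex is small
  have hsm : ∀ {p : ℕ} {s : ℕ → ι → ℤ}, Ch p s → (∀ i ≤ p, ‖ps M (s i) - z‖ ≤ ρ0) →
      ∀ G ∈ φ :: φ' :: (W1 ++ W2 ++ Kw), ∀ i ≤ p, ∀ j ≤ p,
      st F (gr M G) (s i) ≠ st F (gr M G) (s j) → ∀ k ≤ p, |G (ps M (s k))| ≤ δ := by
    intro p s hs hB G hG i hi j hj hne k hk
    exact Hom_st (hun _ _ (hs.near hi hk) (hB i hi) (hB k hk) G hG)
      (hun _ _ (hs.near hj hk) (hB j hj) (hB k hk) G hG) hne
  have hdist : ∀ {v w : ι → ℤ}, Near v w → ‖ps M v - z‖ ≤ ‖ps M w - z‖ + 1 / M := by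
    intro v w hvw
    have h1 : ps M v - z = (ps M v - ps M w) + (ps M w - z) := by abel
    rw [h1]
    have h2 := norm_add_le (ps M v - ps M w) (ps M w - z)
    have h3 := ps_near hM hvw
    linarith
  have hLmap : ∀ (l : List ((ι → ℝ) → ℝ)), ((l.map (gr M)).map (st F)) =
      l.map (fun G => st F (gr M G)) := fun l => by rw [List.map_map]; rfl
  have hinv := fun c => Pool.Agent.H47.ST.Lv_inv (L := L) h.qp h.Qp h.fp R a c hM
  have hwne : ∀ {l : List ((ι → ℝ) → ℝ)} {s : ℕ → ι → ℤ},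
      wH (l.map (fun G => st F (gr M G))) s ≠ 0 → ∀ G ∈ l, ∃ i < l.length,
      st F (gr M G) (s (i + 1)) ≠ st F (gr M G) (s i) := by
    intro l s h1 G hG
    obtain ⟨i, hi, h2⟩ := wH_ne h1 (st F (gr M G)) (List.mem_map.2 ⟨G, hG, rfl⟩)
    exact ⟨i, by rwa [List.length_map] at hi, h2⟩
  refine hom_disc (F := F) (A3 := Lv q Q f R a (κ + α) M) (B := bl M z ρ0)
    (blf M z (3 * ρ2 / 4)) (hinv _) (hinv _) (hinv _)
    (Pool.Agent.H47.ST.Lv_mono q Q f R a hl1.le M)
    (Pool.Agent.H47.ST.Lv_mono q Q f R a (by linarith) M) (Hom_sepd hM hr0)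
    (L1 := W1.map fun G => st F (gr M G)) (L2 := W2.map fun G => st F (gr M G))
    (Kl := Kw.map fun G => st F (gr M G)) (H := st F (gr M φ)) (H' := st F (gr M φ'))
    (by rw [List.length_map, List.length_map, hb]) (by rw [List.length_map, hD])
    ?_ ?_ ?_ ?_ ?_ ?_
  · -- the primitive
    intro s hs hAB n1 n2 n3
    have hB : ∀ i ≤ b, ‖ps M (s i) - z‖ ≤ ρ0 := fun i hi => (hAB i hi).2
    rw [List.length_map] at n3 n2
    have hk : W1.length ≤ b := by omega
    have s1 : ∀ G ∈ W1 ++ W2, |G (ps M (s W1.length))| ≤ δ := by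
      intro G hG
      rcases List.mem_append.1 hG with hG' | hG'
      · obtain ⟨i, hi, h1⟩ := hwne n1 G hG'
        exact hsm hs hB G (hw1 G hG) (i + 1) (by omega) i (by omega) h1 _ hk
      · obtain ⟨i, hi, h1⟩ := hwne n2 G hG'
        simp only [sh] at h1
        exact hsm hs hB G (hw1 G hG) (i + 1 + W1.length) (by omega) (i + W1.length) (by omega)
          h1 _ hk
    have s2 : wg (ps M (s W1.length)) = 0 := by
      unfold st at n3
      refine Wall_st n3 (fun h1 h2 => ?_) (fun h1 h2 => ?_)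
      · exact hwg1 _ (le_trans (min_le_right _ _) h2.le) (le_trans h1 (le_max_left _ _))
      · exact hwg1 _ (le_trans (min_le_left _ _) h1.le) (le_trans h2 (le_max_right _ _))
    have s3 : ∀ G ∈ wg :: (W1 ++ W2), |G (ps M (s W1.length))| ≤ δ := by
      intro G hG
      rcases List.mem_cons.1 hG with rfl | hG
      · rw [s2, abs_zero]; exact hδ.le
      · exact s1 G hG
    have hBk := hB _ hk
    constructor
    · refine ⟨W1.length, hk, fun h1 => ?_⟩
      have h2 := hK1 _ (mem_closedBall_iff_norm.2 hBk) (fun G hG => (s3 G hG).trans d1)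
      have h3 := (hin hBk).1 h1
      linarith
    · intro w hw
      have h1 : ‖ps M (s W1.length) - z‖ < ρ1 := by
        by_contra h2
        push Not at h2
        have h3 := hK2 _ ⟨mem_closedBall_iff_norm.2 hBk, h2⟩ (fun G hG => (s3 G hG).trans d2)
        have h4 := (hin hBk).1 (hAB _ hk).1
        linarith
      have h2 := hdist hw
      have h3 := hdist (hs.near (Nat.zero_le b) hk)
      change ‖ps M w - z‖ ≤ ρ0
      linarith
  · -- the walls
    intro s hs hAB n1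
    have hB : ∀ i ≤ b + 1, ‖ps M (s i) - z‖ ≤ ρ0 := fun i hi => (hAB i hi).2
    have n2 : wH ((W1 ++ φ :: W2).map fun G => st F (gr M G)) s ≠ 0 := by
      rwa [List.map_append, List.map_cons]
    have s1 : ∀ G ∈ φ :: (W1 ++ W2), |G (ps M (s 0))| ≤ δ := by
      intro G hG
      obtain ⟨i, hi, h1⟩ := hwne n2 G (by
        simp only [List.mem_cons, List.mem_append] at hG ⊢; tauto)
      have hi' : i < b + 1 := by
        simp only [List.length_append, List.length_cons] at hi; omega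
      exact hsm hs hB G (by
        simp only [List.mem_cons, List.mem_append] at hG ⊢; tauto) (i + 1) (by omega) i (by omega)
        h1 0 (Nat.zero_le _)
    refine ⟨0, Nat.zero_le _, fun h1 => ?_⟩
    have hB0 := hB 0 (Nat.zero_le _)
    have h2 := hK3 _ (mem_closedBall_iff_norm.2 hB0) (fun G hG => (s1 G hG).trans d3)
    have h3 := (hin hB0).1 h1
    linarith
  · -- the moved walls
    intro s hs hAB
    by_contra n1
    have hB : ∀ i ≤ b + 1, ‖ps M (s i) - z‖ ≤ ρ0 := fun i hi => (hAB i hi).2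
    have n2 : wH ((W1 ++ φ' :: W2).map fun G => st F (gr M G)) s ≠ 0 := by
      rwa [List.map_append, List.map_cons]
    have s1 : ∀ G ∈ φ' :: (W1 ++ W2), |G (ps M (s 0))| ≤ δ := by
      intro G hG
      obtain ⟨i, hi, h1⟩ := hwne n2 G (by
        simp only [List.mem_cons, List.mem_append] at hG ⊢; tauto)
      have hi' : i < b + 1 := by
        simp only [List.length_append, List.length_cons] at hi; omega
      exact hsm hs hB G (by
        simp only [List.mem_cons, List.mem_append] at hG ⊢; tauto) (i + 1) (by omega) i (by omega)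
        h1 0 (Nat.zero_le _)
    have hB0 := hB 0 (Nat.zero_le _)
    have h2 := hK4 _ (mem_closedBall_iff_norm.2 hB0) (fun G hG => (s1 G hG).trans d4)
    have h3 := (hin hB0).1 (hAB 0 (Nat.zero_le _)).1
    linarith
  · -- the detecting walls near the boundary
    intro s hs hG hv hw
    rw [List.length_map] at hs hG
    obtain ⟨v, hv, hv'⟩ := hv
    obtain ⟨w, hw, hw'⟩ := hw
    rw [mem_blf hM] at hv hw
    push Not at hw
    have h1 := hdist hv'.symm
    have h2 := hdist hw'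
    have h3 : ∀ i ≤ b + Kw.length, ‖ps M (s i) - z‖ ≤ ρ2 ∧ ρ2 / 2 ≤ ‖ps M (s i) - z‖ := by
      intro i hi
      have h4 := hdist (hs.near hi (Nat.zero_le _))
      have h5 := hdist (hs.near (Nat.zero_le _) hi)
      constructor <;> linarith
    have hB : ∀ i ≤ b + Kw.length, ‖ps M (s i) - z‖ ≤ ρ0 := fun i hi => by
      linarith [(h3 i hi).1]
    intro i hi
    have hi' : i ≤ b + Kw.length := by omega
    rw [hin (hB i hi')]
    have h4 : ∀ G ∈ Kw, |G (ps M (s i))| ≤ δ6 := by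
      intro G hG'
      obtain ⟨j, hj, k, hk, h5⟩ := hG (st F (gr M G)) (List.mem_map.2 ⟨G, hG', rfl⟩)
      exact (hsm hs hB G (hwK G hG') j hj k hk h5 i hi').trans d6
    have h5 := hK6 _ ⟨mem_closedBall_iff_norm.2 (h3 i hi').1, (h3 i hi').2⟩ h4
    linarith
  · -- the detecting walls inside
    intro v hv π hG i hi
    rw [mem_blf hM] at hv
    have hs := ch_kv v π (Fintype.card ι)
    have h0 : kv v π 0 = v := kv_zero v π
    have h3 : ∀ i ≤ Fintype.card ι, ‖ps M (kv v π i) - z‖ ≤ ρ2 := by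
      intro i hi
      have h4 := hdist (hs.near hi (Nat.zero_le _))
      rw [h0] at h4
      linarith
    have hB : ∀ i ≤ Fintype.card ι, ‖ps M (kv v π i) - z‖ ≤ ρ0 := fun i hi => by
      linarith [h3 i hi]
    have hi' : i ≤ Fintype.card ι := by omega
    refine ⟨?_, hB i hi'⟩
    rw [hin (hB i hi')]
    have h4 : ∀ G ∈ Kw, |G (ps M (kv v π i))| ≤ δ5 := by
      intro G hG'
      obtain ⟨j, hj, k, hk, h5⟩ := hG (st F (gr M G)) (List.mem_map.2 ⟨G, hG', rfl⟩)
      exact (hsm hs hB G (hwK G hG') j hj k hk h5 i hi').trans d5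
    have h5 := hK5 _ (mem_closedBall_iff_norm.2 (h3 i hi')) h4
    linarith
  · -- the integral
    have h1 := Phi_wH (F := F) (blf M z (3 * ρ2 / 4)) ((W1 ++ φ :: W2).map (gr M))
      (Kw.map (gr M))
    have h2 : ((W1 ++ φ :: W2).map (gr M)).length = b + 1 := by
      rw [List.length_map]; simp; omega
    rw [h2, hLmap, ← List.map_append] at h1
    unfold Phi at h1
    rw [hLmap, List.map_append, List.map_cons] at h1
    rw [h1]
    exact hph

end Pool.Agent.H21.TU
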