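import Pool.Agent.H21.TU.Wall

/-!
# Project TU: linear walls
-/

set_option autoImplicit false

namespace Pool.Agent.H21.TU

variable {ι F : Type*} [Fintype ι] [DecidableEq ι] [Field F]

/-- the linear functions with coefficients `a j` vanishing at `c` -/
def lin {n : ℕ} (a : Fin n → ι → ℝ) (c : ι → ℝ) : List ((ι → ℤ) → ℝ) :=
  List.ofFn fun j v => ∑ i, a j i * ((v i : ℝ) - c i)

/-- positive multiples -/
theorem st_mul {f : (ι → ℤ) → ℝ} {t : ℝ} (ht : 0 < t) : st F (fun v => t * f v) = st F f := by
  funext v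
  unfold st
  by_cases h : 0 ≤ f v
  · rw [if_pos h, if_pos (mul_nonneg ht.le h)]
  · rw [if_neg h, if_neg (by
      intro h'
      exact h (nonneg_of_mul_nonneg_right (by linarith) ht))]

/-- one linear wall -/
def Lin_f (x : ι → ℝ) (c : ι → ℝ) : (ι → ℤ) → ℝ := fun v => ∑ i, x i * ((v i : ℝ) - c i)

theorem Lin_getElem {n : ℕ} (a : Fin n → ι → ℝ) (c : ι → ℝ) (k : ℕ) (hk : k < n)
    (hk' : k < (lin a c).length) : (lin a c)[k] = Lin_f (a ⟨k, hk⟩) c := by
  simp only [lin, List.getElem_ofFn]
  rfl

theorem Lin_length {n : ℕ} (a : Fin n → ι → ℝ) (c : ι → ℝ) : (lin a c).length = n := by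
  simp [lin]

theorem Lin_split {n : ℕ} (b : Fin n → ι → ℝ) (m : Fin n) (x : ι → ℝ) (c : ι → ℝ) :
    lin (Function.update b m x) c =
      (lin b c).take m ++ Lin_f x c :: (lin b c).drop (m + 1) := by
  have h1 : lin (Function.update b m x) c = (lin b c).set m (Lin_f x c) := by
    apply List.ext_getElem
    · simp [lin]
    · intro k hk hk'
      rw [Lin_length] at hk
      rw [Lin_getElem _ _ k hk, List.getElem_set]
      by_cases h : (m : ℕ) = k
      · rw [if_pos h]
        have : (⟨k, hk⟩ : Fin n) = m := Fin.ext h.symm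
        rw [this, Function.update_self]
      · rw [if_neg h, Lin_getElem b c k hk]
        have : (⟨k, hk⟩ : Fin n) ≠ m := fun h' => h (by rw [← h'])
        rw [Function.update_of_ne this]
  rw [h1, List.set_eq_take_append_cons_drop, if_pos (by rw [Lin_length]; exact m.2)]

theorem Lin_split_self {n : ℕ} (b : Fin n → ι → ℝ) (m : Fin n) (c : ι → ℝ) :
    lin b c = (lin b c).take m ++ Lin_f (b m) c :: (lin b c).drop (m + 1) := by
  have := Lin_split b m (b m) c
  rwa [Function.update_eq_self] at this

/-- the other walls -/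
theorem Lin_mem {n : ℕ} (b : Fin n → ι → ℝ) (m : Fin n) (c : ι → ℝ) (g : (ι → ℤ) → ℝ) :
    g ∈ (lin b c).take m ++ (lin b c).drop (m + 1) ↔ ∃ k, k ≠ m ∧ g = Lin_f (b k) c := by
  rw [List.mem_append]
  constructor
  · rintro (h | h)
    · obtain ⟨k, hk, rfl⟩ := List.getElem_of_mem h
      rw [List.length_take, Lin_length] at hk
      refine ⟨⟨k, by omega⟩, fun h' => ?_, ?_⟩
      · have := congrArg Fin.val h'
        simp only at this
        omega
      · rw [List.getElem_take, Lin_getElem b c k (by omega)]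
    · obtain ⟨k, hk, rfl⟩ := List.getElem_of_mem h
      rw [List.length_drop, Lin_length] at hk
      refine ⟨⟨m + 1 + k, by omega⟩, fun h' => ?_, ?_⟩
      · have := congrArg Fin.val h'
        simp only at this
        omega
      · rw [List.getElem_drop, Lin_getElem b c (m + 1 + k) (by omega)]
  · rintro ⟨k, hk, rfl⟩
    have hne : (k : ℕ) ≠ m := fun h => hk (Fin.ext h)
    rcases lt_or_gt_of_ne hne with h | h
    · left
      rw [List.mem_take_iff_getElem]
      refine ⟨k, ?_, ?_⟩
      · rw [Lin_length]; omega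
      · rw [Lin_getElem b c k k.2]
    · right
      rw [List.mem_drop_iff_getElem]
      refine ⟨k - (m + 1), ?_, ?_⟩
      · rw [Lin_length]; have := k.2; omega
      · rw [Lin_getElem b c _ (by have := k.2; omega)]
        congr 2
        apply Fin.ext
        simp only
        omega

theorem Lin_var (x : ι → ℝ) (c : ι → ℝ) {v w : ι → ℤ} (h : Near v w) :
    |Lin_f x c v - Lin_f x c w| ≤ ∑ i, |x i| := by
  unfold Lin_f
  rw [← Finset.sum_sub_distrib]
  refine (Finset.abs_sum_le_sum_abs _ _).trans (Finset.sum_le_sum fun i _ => ?_)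
  rw [← mul_sub, abs_mul]
  have h1 : |((v i : ℝ) - c i) - ((w i : ℝ) - c i)| ≤ 1 := by
    have := h i
    have h2 : ((|v i - w i| : ℤ) : ℝ) ≤ 1 := by exact_mod_cast this
    rw [Int.cast_abs, Int.cast_sub] at h2
    rwa [show ((v i : ℝ) - c i) - ((w i : ℝ) - c i) = (v i : ℝ) - w i by ring]
  calc |x i| * |((v i : ℝ) - c i) - ((w i : ℝ) - c i)| ≤ |x i| * 1 :=
        mul_le_mul_of_nonneg_left h1 (abs_nonneg _)
    _ = |x i| := mul_one _

/-- independent linear functions control the distance -/
theorem Lin_bound {b : Fin (Fintype.card ι) → ι → ℝ} (hb : LinearIndependent ℝ b) :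
    ∃ B : ℝ, 0 ≤ B ∧ ∀ (c : ι → ℝ) (v : ι → ℤ) (η : ℝ), (∀ k, |Lin_f (b k) c v| ≤ η) →
      ∀ i, |(v i : ℝ) - c i| ≤ B * η := by
  have hs : Submodule.span ℝ (Set.range b) = ⊤ := by
    apply hb.span_eq_top_of_card_eq_finrank'
    simp
  have h1 : ∀ i : ι, ∃ g : Fin (Fintype.card ι) → ℝ, ∑ k, g k • b k = Pi.single i 1 := by
    intro i
    rw [← Submodule.mem_span_range_iff_exists_fun, hs]
    exact Submodule.mem_top
  choose g hg using h1
  refine ⟨∑ i, ∑ k, |g i k|, Finset.sum_nonneg fun i _ => Finset.sum_nonneg fun k _ =>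
    abs_nonneg _, fun c v η h i => ?_⟩
  have h2 : (v i : ℝ) - c i = ∑ k, g i k * Lin_f (b k) c v := by
    have h3 : ∀ j, (Pi.single i 1 : ι → ℝ) j = ∑ k, g i k * b k j := by
      intro j
      rw [← hg i]
      simp [Finset.sum_apply]
    calc (v i : ℝ) - c i = ∑ j, (Pi.single i 1 : ι → ℝ) j * ((v j : ℝ) - c j) := by
          simp [Pi.single_apply]
      _ = ∑ j, ∑ k, g i k * (b k j * ((v j : ℝ) - c j)) := by
          refine Finset.sum_congr rfl fun j _ => ?_
          rw [h3 j, Finset.sum_mul]
          refine Finset.sum_congr rfl fun k _ => by ring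
      _ = ∑ k, g i k * Lin_f (b k) c v := by
          rw [Finset.sum_comm]
          refine Finset.sum_congr rfl fun k _ => ?_
          rw [Lin_f, Finset.mul_sum]
  rw [h2]
  have hη : 0 ≤ η ∨ IsEmpty (Fin (Fintype.card ι)) := by
    by_cases hn : Nonempty (Fin (Fintype.card ι))
    · exact Or.inl ((abs_nonneg _).trans (h hn.some))
    · exact Or.inr (not_nonempty_iff.1 hn)
  rcases hη with hη | hη
  · calc |∑ k, g i k * Lin_f (b k) c v| ≤ ∑ k, |g i k * Lin_f (b k) c v| :=
          Finset.abs_sum_le_sum_abs _ _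
      _ ≤ ∑ k, |g i k| * η := by
          refine Finset.sum_le_sum fun k _ => ?_
          rw [abs_mul]
          exact mul_le_mul_of_nonneg_left (h k) (abs_nonneg _)
      _ = (∑ k, |g i k|) * η := by rw [Finset.sum_mul]
      _ ≤ (∑ i, ∑ k, |g i k|) * η := by
          refine mul_le_mul_of_nonneg_right ?_ hη
          exact Finset.single_le_sum (f := fun i => ∑ k, |g i k|)
            (fun i _ => Finset.sum_nonneg fun k _ => abs_nonneg _) (Finset.mem_univ i)
  · have : Fintype.card ι = 0 := by
      rcases Nat.eq_zero_or_pos (Fintype.card ι) with h0 | h0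
      · exact h0
      · exact (hη.false ⟨0, h0⟩).elim
    exact ((Fintype.card_eq_zero_iff.1 this).false i).elim

theorem Lin_dep : Dep 0 (fun _ => (1 : F) : K (ι → ℤ) F) := fun _ _ _ => rfl

theorem Lin_d (s : ℕ → ι → ℤ) : d 0 (fun _ => (1 : F) : K (ι → ℤ) F) s = 0 := by
  simp [d, Finset.sum_range_succ]

/-- the integrals of two families of walls agree up to sign -/
def Lin_R (F : Type*) [Field F] (b b' : Fin (Fintype.card ι) → ι → ℝ) : Prop :=
  ∃ C : ℝ, ∀ (c : ι → ℝ) (R : Finset (ι → ℤ)),
    (∀ v : ι → ℤ, (∀ i, |(v i : ℝ) - c i| ≤ C) → v ∈ R) →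
    Phi (F := F) R 0 (fun _ => 1) (lin b' c) = Phi (F := F) R 0 (fun _ => 1) (lin b c) ∨
      Phi (F := F) R 0 (fun _ => 1) (lin b' c) = -Phi (F := F) R 0 (fun _ => 1) (lin b c)

theorem Lin_R.trans {b b' b'' : Fin (Fintype.card ι) → ι → ℝ} (h : Lin_R F b b')
    (h' : Lin_R F b' b'') : Lin_R F b b'' := by
  obtain ⟨C, hC⟩ := h
  obtain ⟨C', hC'⟩ := h'
  refine ⟨max C C', fun c R hR => ?_⟩
  have h1 := hC c R fun v hv => hR v fun i => (hv i).trans (le_max_left _ _)
  have h2 := hC' c R fun v hv => hR v fun i => (hv i).trans (le_max_right _ _)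
  rcases h1 with h1 | h1 <;> rcases h2 with h2 | h2 <;> rw [h2, h1]
  · exact Or.inl rfl
  · exact Or.inr rfl
  · exact Or.inr rfl
  · exact Or.inl (neg_neg _)

theorem Lin_near {b : Fin (Fintype.card ι) → ι → ℝ} {B : ℝ}
    (hB : ∀ (c : ι → ℝ) (v : ι → ℤ) (η : ℝ), (∀ k, |Lin_f (b k) c v| ≤ η) →
      ∀ i, |(v i : ℝ) - c i| ≤ B * η) {η : ℝ} {c : ι → ℝ} {R : Finset (ι → ℤ)}
    (hR : ∀ v : ι → ℤ, (∀ i, |(v i : ℝ) - c i| ≤ B * η + 1) → v ∈ R) {w : ι → ℤ}
    (hw : ∀ k, |Lin_f (b k) c w| ≤ η) : ∀ v, Near v w → v ∈ R := by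
  intro v hv
  refine hR v fun i => ?_
  have h1 := hB c w η hw i
  have h2 : |(v i : ℝ) - w i| ≤ 1 := by
    have := hv i
    have h2 : ((|v i - w i| : ℤ) : ℝ) ≤ 1 := by exact_mod_cast this
    rwa [Int.cast_abs, Int.cast_sub] at h2
  calc |(v i : ℝ) - c i| = |((w i : ℝ) - c i) + ((v i : ℝ) - w i)| := by ring_nf
    _ ≤ |(w i : ℝ) - c i| + |(v i : ℝ) - w i| := abs_add_le _ _
    _ ≤ B * η + 1 := add_le_add h1 h2

theorem Lin_hl (b : Fin (Fintype.card ι) → ι → ℝ) (m : Fin (Fintype.card ι)) (c : ι → ℝ) :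
    Fintype.card ι = 0 + ((lin b c).take m).length + 1 + ((lin b c).drop (m + 1)).length := by
  rw [List.length_take, List.length_drop, Lin_length]
  have := m.2
  omega

/-- addition of a multiple of another wall -/
theorem Lin_transv {b : Fin (Fintype.card ι) → ι → ℝ} (hb : LinearIndependent ℝ b)
    {m j : Fin (Fintype.card ι)} (hmj : m ≠ j) (t : ℝ) :
    Lin_R F b (Function.update b m (b m + t • b j)) := by
  obtain ⟨B, hB0, hB⟩ := Lin_bound hb
  set δ : ℝ := (∑ k, ∑ i, |b k i|) + ∑ i, |(b m + t • b j) i| with hδ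
  have hδ1 : ∀ k, ∑ i, |b k i| ≤ δ := by
    intro k
    have h1 : ∑ i, |b k i| ≤ ∑ k, ∑ i, |b k i| :=
      Finset.single_le_sum (f := fun k => ∑ i, |b k i|)
        (fun k _ => Finset.sum_nonneg fun i _ => abs_nonneg _) (Finset.mem_univ k)
    have h2 : 0 ≤ ∑ i, |(b m + t • b j) i| := Finset.sum_nonneg fun i _ => abs_nonneg _
    linarith
  have hδ2 : ∑ i, |(b m + t • b j) i| ≤ δ := by
    have h2 : 0 ≤ ∑ k, ∑ i, |b k i| :=
      Finset.sum_nonneg fun k _ => Finset.sum_nonneg fun i _ => abs_nonneg _
    linarith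
  have hδ0 : 0 ≤ δ := (Finset.sum_nonneg fun i _ => abs_nonneg _).trans hδ2
  refine ⟨B * ((1 + |t|) * δ) + 1, fun c R hR => Or.inl ?_⟩
  rw [Lin_split b m (b m + t • b j) c]
  conv_rhs => rw [Lin_split_self b m c]
  symm
  refine Phi_replace R Lin_dep (Lin_hl b m c) (δ := δ) ?_ (fun _ _ _ => Lin_d _) ?_
  · intro g hg v w hvw
    rw [List.mem_cons, List.mem_cons] at hg
    rcases hg with rfl | rfl | hg
    · exact (Lin_var _ _ hvw).trans (hδ1 m)
    · exact (Lin_var _ _ hvw).trans hδ2
    · obtain ⟨k, -, rfl⟩ := (Lin_mem b m c g).1 hg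
      exact (Lin_var _ _ hvw).trans (hδ1 k)
  · intro s hs _ hg hmin hmax
    left
    refine Lin_near hB hR fun k => ?_
    have hne : ∀ k, k ≠ m → |Lin_f (b k) c (s 0)| ≤ δ := fun k hk =>
      hg _ ((Lin_mem b m c _).2 ⟨k, hk, rfl⟩)
    have ht : 0 ≤ |t| := abs_nonneg t
    by_cases hk : k = m
    · subst hk
      have hj := hne j (Ne.symm hmj)
      have he : Lin_f (b k + t • b j) c (s 0) = Lin_f (b k) c (s 0) + t * Lin_f (b j) c (s 0) := by
        unfold Lin_f
        rw [Finset.mul_sum, ← Finset.sum_add_distrib]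
        refine Finset.sum_congr rfl fun i _ => ?_
        simp only [Pi.add_apply, Pi.smul_apply, smul_eq_mul]
        ring
      have h3 : |t * Lin_f (b j) c (s 0)| ≤ |t| * δ := by
        rw [abs_mul]
        exact mul_le_mul_of_nonneg_left hj ht
      rw [abs_le] at h3
      rw [he] at hmin hmax
      have h4 : (1 + |t|) * δ = δ + |t| * δ := by ring
      rw [h4, abs_le]
      have h5 : 0 ≤ |t| * δ := mul_nonneg ht hδ0
      constructor
      · rcases le_max_iff.1 hmax with h | h <;> linarith
      · rcases min_le_iff.1 hmin with h | h <;> linarith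
    · refine (hne k hk).trans ?_
      nlinarith

theorem Lin_f_smul (x : ι → ℝ) (c : ι → ℝ) (t : ℝ) :
    Lin_f (t • x) c = fun v => t * Lin_f x c v := by
  funext v
  unfold Lin_f
  rw [Finset.mul_sum]
  refine Finset.sum_congr rfl fun i _ => ?_
  simp only [Pi.smul_apply, smul_eq_mul]
  ring

/-- multiplication of one wall by a positive number -/
theorem Lin_pos (b : Fin (Fintype.card ι) → ι → ℝ) (m : Fin (Fintype.card ι)) {t : ℝ}
    (ht : 0 < t) : Lin_R F b (Function.update b m (t • b m)) := by
  refine ⟨0, fun c R _ => Or.inl ?_⟩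
  rw [Lin_split b m (t • b m) c]
  conv_rhs => rw [Lin_split_self b m c]
  unfold Phi
  rw [List.map_append, List.map_cons, List.map_append, List.map_cons, Lin_f_smul, st_mul ht]

/-- the complement of a function on the vertices -/
theorem Lin_compl (R : Finset (ι → ℤ)) (p : ℕ) (a : K (ι → ℤ) F) (L1 L2 : List ((ι → ℤ) → F))
    (H : (ι → ℤ) → F) :
    PhiH R p a (L1 ++ (fun v => 1 - H v) :: L2) = -PhiH R p a (L1 ++ H :: L2) := by
  have h1 : c1 (fun v => 1 - H v) = -c1 H := by
    funext s
    simp only [c1, Pi.neg_apply]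
    ring
  have h2 : wH (L1 ++ (fun v => 1 - H v) :: L2) = -wH (L1 ++ H :: L2) := by
    rw [wH_append, wH_append]
    funext s
    simp only [wH, cup, h1, Pi.neg_apply]
    ring
  unfold PhiH
  rw [h2]
  have h3 : cup p a (-wH (L1 ++ H :: L2)) = (-1 : F) • cup p a (wH (L1 ++ H :: L2)) := by
    funext s
    simp only [cup, Pi.neg_apply, Pi.smul_apply, smul_eq_mul]
    ring
  rw [h3, Int_smul]
  ring

open Classical in
/-- change of sign of one wall -/
theorem Lin_neg {b : Fin (Fintype.card ι) → ι → ℝ} (hb : LinearIndependent ℝ b)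
    (m : Fin (Fintype.card ι)) : Lin_R F b (Function.update b m ((-1 : ℝ) • b m)) := by
  obtain ⟨B, hB0, hB⟩ := Lin_bound hb
  set δ : ℝ := (∑ k, ∑ i, |b k i|) with hδ
  have hδ1 : ∀ k, ∑ i, |b k i| ≤ δ := fun k =>
    Finset.single_le_sum (f := fun k => ∑ i, |b k i|)
        (fun k _ => Finset.sum_nonneg fun i _ => abs_nonneg _) (Finset.mem_univ k)
  refine ⟨B * δ + 1, fun c R hR => Or.inr ?_⟩
  have e1 : st F (Lin_f ((-1 : ℝ) • b m) c) =
      fun v => 1 - (if 0 < Lin_f (b m) c v then (1 : F) else 0) := by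
    funext v
    rw [Lin_f_smul]
    unfold st
    by_cases h : 0 < Lin_f (b m) c v
    · rw [if_pos h, if_neg (by linarith)]
      ring
    · rw [if_neg h, if_pos (by linarith)]
      ring
  rw [Lin_split b m ((-1 : ℝ) • b m) c]
  conv_rhs => rw [Lin_split_self b m c]
  unfold Phi
  rw [List.map_append, List.map_cons, List.map_append, List.map_cons, e1, Lin_compl]
  congr 1
  refine PhiH_replace R Lin_dep ?_ (fun _ _ _ => Lin_d _) ?_
  · rw [List.length_map, List.length_map]
    exact Lin_hl b m c
  · intro s hs _ hG hne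
    left
    rw [List.length_map, List.length_map] at hs hG hne
    have hvar : ∀ k, ∀ v w : ι → ℤ, Near v w → |Lin_f (b k) c v - Lin_f (b k) c w| ≤ δ :=
      fun k v w h => (Lin_var _ _ h).trans (hδ1 k)
    refine Lin_near hB hR fun k => ?_
    by_cases hk : k = m
    · subst hk
      obtain ⟨i, hi, hne⟩ := hne
      have h0 : Lin_f (b k) c (s i) = 0 := by
        unfold st at hne
        by_contra h0
        apply hne
        by_cases h : 0 < Lin_f (b k) c (s i)
        · rw [if_pos h, if_pos h.le]
        · rw [if_neg h, if_neg (fun h' => h (lt_of_le_of_ne h' (Ne.symm h0)))]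
      have h1 := hvar k (s i) (s 0) (hs.near hi (Nat.zero_le _))
      rwa [h0, zero_sub, abs_neg] at h1
    · have h1 : st F (Lin_f (b k) c) ∈ ((lin b c).take m).map (st F) ++
          ((lin b c).drop (m + 1)).map (st F) := by
        rw [← List.map_append]
        exact List.mem_map_of_mem ((Lin_mem b m c _).2 ⟨k, hk, rfl⟩)
      obtain ⟨i, hi, j, hj, hij⟩ := hG _ h1
      exact st_ch (hvar k) (hs.near hi (Nat.zero_le _)) (hs.near hj (Nat.zero_le _)) hij

/-- multiplication of one wall by a number -/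
theorem Lin_mul {b : Fin (Fintype.card ι) → ι → ℝ} (hb : LinearIndependent ℝ b)
    (m : Fin (Fintype.card ι)) {t : ℝ} (ht : t ≠ 0) :
    Lin_R F b (Function.update b m (t • b m)) := by
  rcases lt_or_gt_of_ne ht with h | h
  · refine (Lin_neg hb m).trans ?_
    have h1 := Lin_pos (F := F) (Function.update b m ((-1 : ℝ) • b m)) m (t := -t) (by linarith)
    have h2 : Function.update (Function.update b m ((-1 : ℝ) • b m)) m
        ((-t) • Function.update b m ((-1 : ℝ) • b m) m) = Function.update b m (t • b m) := by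
      rw [Function.update_idem, Function.update_self, smul_smul]
      congr 2
      ring
    rwa [h2] at h1
  · exact Lin_pos b m h

theorem Lin_R.refl (b : Fin (Fintype.card ι) → ι → ℝ) : Lin_R F b b := ⟨0, fun _ _ _ => Or.inl rfl⟩

/-- the rows of the product of a matrix with a family of vectors -/
def Lin_act (M : Matrix (Fin (Fintype.card ι)) (Fin (Fintype.card ι)) ℝ)
    (b : Fin (Fintype.card ι) → ι → ℝ) : Fin (Fintype.card ι) → ι → ℝ :=
  fun j => ∑ k, M j k • b k

theorem Lin_act_mul (A B : Matrix (Fin (Fintype.card ι)) (Fin (Fintype.card ι)) ℝ)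
    (b : Fin (Fintype.card ι) → ι → ℝ) : Lin_act (A * B) b = Lin_act A (Lin_act B b) := by
  funext j
  unfold Lin_act
  simp only [Matrix.mul_apply, Finset.sum_smul, Finset.smul_sum, smul_smul]
  rw [Finset.sum_comm]

theorem Lin_act_indep {M : Matrix (Fin (Fintype.card ι)) (Fin (Fintype.card ι)) ℝ}
    (hM : M.det ≠ 0) {b : Fin (Fintype.card ι) → ι → ℝ} (hb : LinearIndependent ℝ b) :
    LinearIndependent ℝ (Lin_act M b) := by
  rw [Fintype.linearIndependent_iff] at hb ⊢
  intro g hg
  have h1 : ∑ k, (Matrix.vecMul g M) k • b k = 0 := by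
    rw [← hg]
    unfold Lin_act
    simp only [Finset.smul_sum, smul_smul, Matrix.vecMul, dotProduct, Finset.sum_smul]
    rw [Finset.sum_comm]
  have h2 : Matrix.vecMul g M = 0 := funext fun k => hb _ h1 k
  have h3 := Matrix.eq_zero_of_vecMul_eq_zero hM h2
  intro i
  rw [h3]
  rfl

theorem Lin_diag (D : Fin (Fintype.card ι) → ℝ) (hD : ∀ k, D k ≠ 0)
    {b : Fin (Fintype.card ι) → ι → ℝ} (hb : LinearIndependent ℝ b) :
    Lin_R F b (Lin_act (Matrix.diagonal D) b) := by
  have key : ∀ S : Finset (Fin (Fintype.card ι)),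
      Lin_R F b (fun j => if j ∈ S then D j • b j else b j) := by
    intro S
    induction S using Finset.induction_on with
    | empty => simpa using Lin_R.refl b
    | insert k S hk ih =>
      refine ih.trans ?_
      have hi : LinearIndependent ℝ (fun j => if j ∈ S then D j • b j else b j) := by
        have h1 := hb.units_smul (fun j => if j ∈ S then Units.mk0 (D j) (hD j) else 1)
        convert h1 using 1
        funext j
        by_cases hj : j ∈ S
        · simp [hj, Units.smul_def]
        · simp [hj]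
      have h2 := Lin_mul (F := F) hi k (hD k)
      convert h2 using 1
      funext j
      by_cases hj : j = k
      · subst hj
        rw [Function.update_self, if_pos (Finset.mem_insert_self _ _), if_neg hk]
      · rw [Function.update_of_ne hj]
        by_cases hj' : j ∈ S
        · rw [if_pos (Finset.mem_insert_of_mem hj'), if_pos hj']
        · rw [if_neg hj', if_neg (by simp [hj, hj'])]
  have h := key Finset.univ
  convert h using 1
  funext j
  simp only [Lin_act, Finset.mem_univ, if_true]
  rw [Finset.sum_eq_single j]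
  · rw [Matrix.diagonal_apply_eq]
  · intro k _ hk
    rw [Matrix.diagonal_apply_ne _ (Ne.symm hk), zero_smul]
  · intro h
    exact absurd (Finset.mem_univ j) h

theorem Lin_all (M : Matrix (Fin (Fintype.card ι)) (Fin (Fintype.card ι)) ℝ) (hM : M.det ≠ 0) :
    ∀ b : Fin (Fintype.card ι) → ι → ℝ, LinearIndependent ℝ b → Lin_R F b (Lin_act M b) := by
  refine Matrix.diagonal_transvection_induction_of_det_ne_zero
    (fun M => ∀ b : Fin (Fintype.card ι) → ι → ℝ, LinearIndependent ℝ b →
      Lin_R F b (Lin_act M b)) M hM ?_ ?_ ?_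
  · intro D hD b hb
    rw [Matrix.det_diagonal] at hD
    exact Lin_diag D (fun k => fun h => hD (Finset.prod_eq_zero (Finset.mem_univ k) h)) hb
  · intro t b hb
    have h1 := Lin_transv (F := F) hb t.hij t.c
    convert h1 using 1
    funext l
    simp only [Lin_act, Matrix.TransvectionStruct.toMatrix, Matrix.transvection, Matrix.add_apply,
      add_smul, Finset.sum_add_distrib]
    have e1 : ∑ k, (1 : Matrix (Fin (Fintype.card ι)) (Fin (Fintype.card ι)) ℝ) l k • b k = b l := by
      rw [Finset.sum_eq_single l]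
      · rw [Matrix.one_apply_eq, one_smul]
      · intro k _ hk
        rw [Matrix.one_apply_ne (Ne.symm hk), zero_smul]
      · intro h
        exact absurd (Finset.mem_univ l) h
    rw [e1]
    by_cases hl : l = t.i
    · subst hl
      rw [Function.update_self]
      congr 1
      rw [Finset.sum_eq_single t.j]
      · simp
      · intro k _ hk
        rw [Matrix.single_apply_of_ne _ _ _ _ _ (by simp [Ne.symm hk]), zero_smul]
      · intro h
        exact absurd (Finset.mem_univ t.j) h
    · rw [Function.update_of_ne hl]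
      rw [Finset.sum_eq_zero, add_zero]
      intro k _
      rw [Matrix.single_apply_of_ne _ _ _ _ _ (by simp [Ne.symm hl]), zero_smul]
  · intro A B hA hB hPA hPB b hb
    rw [Lin_act_mul]
    exact (hPB b hb).trans (hPA _ (Lin_act_indep hB hb))

/-- values of the product of walls -/
theorem Lin_wH {V : Type*} (L : List (V → F)) (s : ℕ → V) :
    wH L s = ∏ j : Fin L.length, (L[j] (s (j + 1)) - L[j] (s j)) := by
  induction L generalizing s with
  | nil => simp [wH]
  | cons H L ih =>
    rw [wH]
    unfold cup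
    rw [ih (sh 1 s)]
    simp only [List.length_cons]
    rw [Fin.prod_univ_succ]
    rfl

/-- the coordinate walls -/
theorem Lin_base (c : ι → ℝ) (R : Finset (ι → ℤ))
    (hR : ∀ v : ι → ℤ, (∀ i, |(v i : ℝ) - c i| ≤ 1) → v ∈ R) :
    Phi (F := F) R 0 (fun _ => 1) (lin (fun j => Pi.single (ref ι j) 1) c) = 1 := by
  set w : ι → ℤ := fun i => ⌈c i⌉ - 1 with hw
  have hwR : w ∈ R := by
    refine hR w fun i => ?_
    rw [hw]
    push_cast
    have h1 := Int.le_ceil (c i)
    have h2 := Int.ceil_lt_add_one (c i)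
    rw [abs_le]
    constructor <;> linarith
  have hf : ∀ (j : Fin (Fintype.card ι)) (v : ι → ℤ),
      Lin_f (Pi.single (ref ι j) 1 : ι → ℝ) c v = (v (ref ι j) : ℝ) - c (ref ι j) := by
    intro j v
    unfold Lin_f
    simp [Pi.single_apply]
  have hval : ∀ (v : ι → ℤ) (π : Fin (Fintype.card ι) ≃ ι),
      wH ((lin (fun j => Pi.single (ref ι j) 1) c).map (st F)) (kv v π) =
        ∏ j : Fin (Fintype.card ι), (st F (fun v => (v (ref ι j) : ℝ) - c (ref ι j)) (kv v π (j + 1)) -
          st F (fun v => (v (ref ι j) : ℝ) - c (ref ι j)) (kv v π j)) := by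
    intro v π
    rw [Lin_wH]
    have hlen : ((lin (fun j => Pi.single (ref ι j) 1) c).map (st F)).length =
        Fintype.card ι := by rw [List.length_map, Lin_length]
    refine Fintype.prod_equiv (finCongr hlen) _ _ fun j => ?_
    have h1 : ((lin (fun j => (Pi.single (ref ι j) 1 : ι → ℝ)) c).map (st F))[j] =
        st F (fun v => (v (ref ι (finCongr hlen j)) : ℝ) - c (ref ι (finCongr hlen j))) := by
      rw [Fin.getElem_fin, List.getElem_map]
      congr 1
      rw [Lin_getElem _ _ _ (lt_of_lt_of_eq j.2 hlen)]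
      funext v
      rw [hf]
      rfl
    rw [h1]
    rfl
  have hst : ∀ (v : ι → ℤ) (π : Fin (Fintype.card ι) ≃ ι) (j : Fin (Fintype.card ι)),
      st F (fun v => (v (ref ι j) : ℝ) - c (ref ι j)) (kv v π (j + 1)) -
          st F (fun v => (v (ref ι j) : ℝ) - c (ref ι j)) (kv v π j) ≠ 0 →
        π j = ref ι j ∧ v (ref ι j) = w (ref ι j) := by
    intro v π j h
    have h1 : kv v π (j + 1) (ref ι j) ≠ kv v π j (ref ι j) := by
      intro h'
      apply h
      unfold st
      simp only [h', sub_self]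
    have h2 : π.symm (ref ι j) = j := by
      unfold kv at h1
      by_contra h3
      apply h1
      have h4 : ((π.symm (ref ι j) : Fin (Fintype.card ι)) : ℕ) ≠ j := fun h' => h3 (Fin.ext h')
      congr 1
      by_cases h5 : ((π.symm (ref ι j) : Fin (Fintype.card ι)) : ℕ) < j
      · rw [if_pos h5, if_pos (by omega)]
      · rw [if_neg h5, if_neg (by omega)]
    have h3 : kv v π (j + 1) (ref ι j) = v (ref ι j) + 1 := by
      unfold kv
      rw [if_pos (by rw [h2]; omega)]
    have h4 : kv v π j (ref ι j) = v (ref ι j) := by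
      unfold kv
      rw [if_neg (by rw [h2]; omega), add_zero]
    refine ⟨by rw [← h2, Equiv.apply_symm_apply, h2], ?_⟩
    rw [hw]
    simp only
    have h5 : ⌈c (ref ι j)⌉ = v (ref ι j) + 1 := by
      rw [Int.ceil_eq_iff]
      push_cast
      by_contra hcon
      apply h
      unfold st
      simp only [h3, h4]
      push_cast
      by_cases h6 : (0 : ℝ) ≤ (v (ref ι j) : ℝ) - c (ref ι j)
      · rw [if_pos h6, if_pos (by linarith), sub_self]
      · have h7 : ¬ (0 : ℝ) ≤ (v (ref ι j) : ℝ) + 1 - c (ref ι j) := by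
          intro h8
          apply hcon
          constructor <;> linarith
        rw [if_neg h6, if_neg h7, sub_self]
    rw [h5]
    ring
  have hone : ∀ j : Fin (Fintype.card ι),
      st F (fun v => (v (ref ι j) : ℝ) - c (ref ι j)) (kv w (ref ι) (j + 1)) -
          st F (fun v => (v (ref ι j) : ℝ) - c (ref ι j)) (kv w (ref ι) j) = 1 := by
    intro j
    have h3 : kv w (ref ι) (j + 1) (ref ι j) = ⌈c (ref ι j)⌉ := by
      unfold kv
      rw [if_pos (by rw [Equiv.symm_apply_apply]; omega), hw]
      ring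
    have h4 : kv w (ref ι) j (ref ι j) = ⌈c (ref ι j)⌉ - 1 := by
      unfold kv
      rw [if_neg (by rw [Equiv.symm_apply_apply]; omega), add_zero]
    unfold st
    simp only [h3, h4]
    push_cast
    have h1 := Int.le_ceil (c (ref ι j))
    have h2 := Int.ceil_lt_add_one (c (ref ι j))
    rw [if_pos (by linarith), if_neg (by linarith), sub_zero]
  unfold Phi PhiH
  unfold TU.Int
  rw [Finset.sum_eq_single w]
  · rw [Finset.sum_eq_single (ref ι)]
    · unfold cup
      rw [sh_zero, hval, Finset.prod_congr rfl fun j _ => hone j]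
      simp [sg]
    · intro π _ hπ
      unfold cup
      rw [sh_zero, hval]
      have : ∃ j, π j ≠ ref ι j := by
        by_contra h
        push Not at h
        exact hπ (Equiv.ext h)
      obtain ⟨j, hj⟩ := this
      rw [Finset.prod_eq_zero (Finset.mem_univ j), mul_zero, mul_zero]
      by_contra h
      exact hj (hst w π j h).1
    · intro h
      exact absurd (Finset.mem_univ _) h
  · intro v _ hv
    refine Finset.sum_eq_zero fun π _ => ?_
    unfold cup
    rw [sh_zero, hval]
    have : ∃ j, v (ref ι j) ≠ w (ref ι j) := by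
      by_contra h
      push Not at h
      apply hv
      funext i
      have := h ((ref ι).symm i)
      rwa [Equiv.apply_symm_apply] at this
    obtain ⟨j, hj⟩ := this
    rw [Finset.prod_eq_zero (Finset.mem_univ j), mul_zero, mul_zero]
    by_contra h
    exact hj (hst v π j h).2
  · intro h
    exact absurd hwR h

/-- The integral of independent linear walls is `1` or `-1`. -/
theorem Phi_lin (F : Type*) [Field F] (a : Fin (Fintype.card ι) → ι → ℝ)
    (ha : LinearIndependent ℝ a) : ∃ C : ℝ, ∀ (c : ι → ℝ) (R : Finset (ι → ℤ)),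
      (∀ v : ι → ℤ, (∀ i, |(v i : ℝ) - c i| ≤ C) → v ∈ R) →
      Phi (F := F) R 0 (fun _ => 1) (lin a c) = 1 ∨
        Phi (F := F) R 0 (fun _ => 1) (lin a c) = -1 := by
  set e : Fin (Fintype.card ι) → ι → ℝ := fun j => Pi.single (ref ι j) 1 with he
  set M : Matrix (Fin (Fintype.card ι)) (Fin (Fintype.card ι)) ℝ :=
    Matrix.of fun j k => a j (ref ι k) with hMdef
  have hae : Lin_act M e = a := by
    funext j i
    unfold Lin_act
    rw [Finset.sum_apply, Finset.sum_eq_single ((ref ι).symm i)]
    · simp [hMdef, he]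
    · intro k _ hk
      have : i ≠ ref ι k := fun h => hk (by rw [h, Equiv.symm_apply_apply])
      simp [he, Pi.single_apply, this]
    · intro h
      exact absurd (Finset.mem_univ _) h
  have heI : LinearIndependent ℝ e := by
    rw [Fintype.linearIndependent_iff]
    intro g hg i
    have := congrFun hg (ref ι i)
    rw [Finset.sum_apply, Finset.sum_eq_single i] at this
    · simpa [he] using this
    · intro k _ hk
      have : ref ι i ≠ ref ι k := fun h => hk ((ref ι).injective h.symm)
      simp [he, Pi.single_apply, this]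
    · intro h
      exact absurd (Finset.mem_univ _) h
  have hM : M.det ≠ 0 := by
    have h1 : LinearIndependent ℝ M.row := by
      rw [Fintype.linearIndependent_iff] at ha ⊢
      intro g hg
      refine ha g ?_
      funext i
      have := congrFun hg ((ref ι).symm i)
      simpa [hMdef, Matrix.row, Finset.sum_apply] using this
    rw [Matrix.linearIndependent_rows_iff_isUnit, Matrix.isUnit_iff_isUnit_det] at h1
    exact h1.ne_zero
  have h := Lin_all (F := F) M hM e heI
  rw [hae] at h
  obtain ⟨C, hC⟩ := h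
  refine ⟨max C 1, fun c R hR => ?_⟩
  have h1 := hC c R fun v hv => hR v fun i => (hv i).trans (le_max_left _ _)
  have h2 := Lin_base (F := F) c R fun v hv => hR v fun i => (hv i).trans (le_max_right _ _)
  rw [h2] at h1
  exact h1

end Pool.Agent.H21.TU
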