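import Pool.Agent.H21.TU.Loc
import Pool.Agent.H21.TU.Lin

/-!
# Project TU: grids, balls, compactness
-/

set_option autoImplicit false

namespace Pool.Agent.H21.TU

open Filter Topology
open Pool.Agent.H47.ST (ps rl lam)

variable {ι F : Type*} [Fintype ι] [DecidableEq ι] [Field F]

/-- the function `G` on the grid of mesh `1/M` -/
noncomputable def gr (M : ℕ) (G : (ι → ℝ) → ℝ) : (ι → ℤ) → ℝ := fun v => G (ps M v)

/-- the vertices of the grid of mesh `1/M` in the closed ball -/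
def bl (M : ℕ) (z : ι → ℝ) (ρ : ℝ) : Set (ι → ℤ) := {v | ‖ps M v - z‖ ≤ ρ}

omit [DecidableEq ι] in
theorem bl_finite {M : ℕ} (hM : 0 < M) (z : ι → ℝ) (ρ : ℝ) : (bl M z ρ).Finite := by
  classical
  have hM' : (0 : ℝ) < M := Nat.cast_pos.2 hM
  have h1 : bl M z ρ ⊆ Set.pi Set.univ
      (fun i => Set.Icc ⌊(M : ℝ) * (z i - ρ)⌋ ⌈(M : ℝ) * (z i + ρ)⌉) := by
    intro v hv i _
    have h2 : |(v i : ℝ) / M - z i| ≤ ρ := by
      have h3 := (norm_le_pi_norm (ps M v - z) i).trans hv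
      rwa [Real.norm_eq_abs] at h3
    rw [abs_le] at h2
    have h4 : (M : ℝ) * (z i - ρ) ≤ v i := by
      have h5 : z i - ρ ≤ (v i : ℝ) / M := by linarith [h2.1]
      rw [le_div_iff₀ hM'] at h5
      linarith
    have h6 : (v i : ℝ) ≤ (M : ℝ) * (z i + ρ) := by
      have h5 : (v i : ℝ) / M ≤ z i + ρ := by linarith [h2.2]
      rw [div_le_iff₀ hM'] at h5
      linarith
    exact ⟨Int.floor_le_iff.2 (by linarith [Int.lt_floor_add_one ((M : ℝ) * (z i - ρ))]),
      Int.le_ceil_iff.2 (by linarith)⟩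
  exact (Set.Finite.pi' fun i => Set.finite_Icc _ _).subset fun v hv i => h1 hv i (Set.mem_univ i)

open Classical in
/-- the vertices of the grid of mesh `1/M` in the closed ball -/
noncomputable def blf (M : ℕ) (z : ι → ℝ) (ρ : ℝ) : Finset (ι → ℤ) :=
  if h : (bl M z ρ).Finite then h.toFinset else ∅

omit [DecidableEq ι] in
theorem mem_blf {M : ℕ} (hM : 0 < M) {z : ι → ℝ} {ρ : ℝ} {v : ι → ℤ} :
    v ∈ blf M z ρ ↔ ‖ps M v - z‖ ≤ ρ := by
  unfold blf
  rw [dif_pos (bl_finite hM z ρ), Set.Finite.mem_toFinset]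
  rfl

/-- the linear functions with coefficients `c j` vanishing at `z` -/
def rlin {n : ℕ} (c : Fin n → ι → ℝ) (z : ι → ℝ) : List ((ι → ℝ) → ℝ) :=
  List.ofFn fun j y => ∑ i, c j i * (y i - z i)

omit [DecidableEq ι] in
/-- near vertices give near points -/
theorem ps_near {M : ℕ} (hM : 0 < M) {v w : ι → ℤ} (h : Near v w) :
    ‖ps M v - ps M w‖ ≤ 1 / M := by
  have hM' : (0 : ℝ) < M := Nat.cast_pos.2 hM
  refine (pi_norm_le_iff_of_nonneg (by positivity)).2 fun i => ?_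
  have h1 : (ps M v - ps M w) i = ((v i - w i : ℤ) : ℝ) / M := by
    simp only [Pi.sub_apply, ps]
    push_cast
    ring
  rw [h1, Real.norm_eq_abs, abs_div, abs_of_pos hM']
  refine div_le_div_of_nonneg_right ?_ hM'.le
  rw [← Int.cast_abs]
  exact_mod_cast h i

/-- compactness: finitely many functions without common zero in `{ψ ≤ 0}` -/
theorem cpt_list {X : Type*} [TopologicalSpace X] {C : Set X} (hC : IsCompact C)
    (l : List (X → ℝ)) (hl : ∀ G ∈ l, ContinuousOn G C) {ψ : X → ℝ} (hψ : ContinuousOn ψ C)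
    (h : ∀ y ∈ C, (∀ G ∈ l, G y = 0) → 0 < ψ y) :
    ∃ δ > 0, ∀ y ∈ C, (∀ G ∈ l, |G y| ≤ δ) → δ < ψ y := by
  induction l generalizing ψ with
  | nil =>
    rcases C.eq_empty_or_nonempty with rfl | hne
    · exact ⟨1, one_pos, fun y hy => absurd hy (Set.notMem_empty y)⟩
    · obtain ⟨y0, hy0, hmin⟩ := hC.exists_isMinOn hne hψ
      have h0 : 0 < ψ y0 := h y0 hy0 (fun G hG => absurd hG (List.not_mem_nil))
      exact ⟨ψ y0 / 2, by positivity, fun y hy _ => lt_of_lt_of_le (by linarith) (hmin hy)⟩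
  | cons G l ih =>
    have h1 : ∀ y ∈ C, (∀ G' ∈ l, G' y = 0) → 0 < |G y| + max (ψ y) 0 := by
      intro y hy hz
      by_cases hG : G y = 0
      · have := h y hy (fun G' hG' => by
          rcases List.mem_cons.1 hG' with rfl | hG'
          · exact hG
          · exact hz G' hG')
        have h2 : ψ y ≤ max (ψ y) 0 := le_max_left _ _
        have := abs_nonneg (G y)
        linarith
      · have := abs_pos.2 hG
        have h2 : (0 : ℝ) ≤ max (ψ y) 0 := le_max_right _ _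
        linarith
    obtain ⟨δ, hδ, h2⟩ := ih (fun G' hG' => hl G' (List.mem_cons_of_mem _ hG'))
      (ψ := fun y => |G y| + max (ψ y) 0)
      (((hl G List.mem_cons_self).abs).add (hψ.sup continuousOn_const)) h1
    refine ⟨δ / 2, by positivity, fun y hy hz => ?_⟩
    have h3 := h2 y hy (fun G' hG' => (hz G' (List.mem_cons_of_mem _ hG')).trans (by linarith))
    have h4 := hz G List.mem_cons_self
    have h5 : δ / 2 < max (ψ y) 0 := by
      have : δ < |G y| + max (ψ y) 0 := h3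
      linarith
    rcases le_total (ψ y) 0 with h6 | h6
    · rw [max_eq_right h6] at h5
      linarith
    · rwa [max_eq_left h6] at h5

omit [DecidableEq ι] in
/-- uniform continuity on a closed ball, for near vertices -/
theorem unif_ball (z : ι → ℝ) (r : ℝ) (l : List ((ι → ℝ) → ℝ))
    (hl : ∀ G ∈ l, ContinuousOn G (Metric.closedBall z r)) {δ : ℝ} (hδ : 0 < δ) :
    ∀ᶠ M : ℕ in atTop, 0 < M ∧ ∀ v w : ι → ℤ, Near v w → ‖ps M v - z‖ ≤ r →
      ‖ps M w - z‖ ≤ r → ∀ G ∈ l, |gr M G v - gr M G w| ≤ δ := by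
  have h1 : ∀ G ∈ l, ∀ᶠ M : ℕ in atTop, ∀ v w : ι → ℤ, Near v w → ‖ps M v - z‖ ≤ r →
      ‖ps M w - z‖ ≤ r → |gr M G v - gr M G w| ≤ δ := by
    intro G hG
    have hu := (isCompact_closedBall z r).uniformContinuousOn_of_continuous (hl G hG)
    rw [Metric.uniformContinuousOn_iff_le] at hu
    obtain ⟨η, hη, h2⟩ := hu δ hδ
    filter_upwards [eventually_gt_atTop 0, eventually_ge_atTop (⌈1 / η⌉₊ + 1)] with M hM hM2
    intro v w hvw hv hw
    have hM' : (0 : ℝ) < M := Nat.cast_pos.2 hM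
    have h3 : (1 : ℝ) / M ≤ η := by
      have h4 : 1 / η ≤ (M : ℝ) := by
        have h5 : ((⌈1 / η⌉₊ + 1 : ℕ) : ℝ) ≤ M := Nat.cast_le.2 hM2
        push_cast at h5
        linarith [Nat.le_ceil (1 / η)]
      rw [div_le_iff₀ hM']
      rw [div_le_iff₀ hη] at h4
      linarith
    have h6 := h2 (ps M v) (mem_closedBall_iff_norm.2 hv) (ps M w) (mem_closedBall_iff_norm.2 hw)
      (by rw [dist_eq_norm]; exact (ps_near hM hvw).trans h3)
    rwa [Real.dist_eq] at h6
  have h2 : ∀ᶠ M : ℕ in atTop, ∀ G ∈ l, ∀ v w : ι → ℤ, Near v w → ‖ps M v - z‖ ≤ r →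
      ‖ps M w - z‖ ≤ r → |gr M G v - gr M G w| ≤ δ := by
    clear hl
    induction l with
    | nil => exact Eventually.of_forall fun M G hG => absurd hG (List.not_mem_nil)
    | cons G l ih =>
      filter_upwards [h1 G List.mem_cons_self,
        ih (fun G' hG' => h1 G' (List.mem_cons_of_mem _ hG'))] with M h3 h4
      intro G' hG'
      rcases List.mem_cons.1 hG' with rfl | hG'
      · exact h3
      · exact h4 G' hG'
  filter_upwards [h2, eventually_gt_atTop 0] with M h3 hM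
  exact ⟨hM, fun v w hvw hv hw G hG => h3 G hG v w hvw hv hw⟩

omit [DecidableEq ι] in
theorem one_div_small {η : ℝ} (hη : 0 < η) : ∀ᶠ M : ℕ in atTop, 0 < M ∧ (1 : ℝ) / M ≤ η := by
  filter_upwards [eventually_gt_atTop 0, eventually_ge_atTop (⌈1 / η⌉₊ + 1)] with M hM hM2
  have hM' : (0 : ℝ) < M := Nat.cast_pos.2 hM
  refine ⟨hM, ?_⟩
  have h4 : 1 / η ≤ (M : ℝ) := by
    have h5 : ((⌈1 / η⌉₊ + 1 : ℕ) : ℝ) ≤ M := Nat.cast_le.2 hM2
    push_cast at h5
    linarith [Nat.le_ceil (1 / η)]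
  rw [div_le_iff₀ hM']
  rw [div_le_iff₀ hη] at h4
  linarith

end Pool.Agent.H21.TU
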