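import Pool.Agent.H21.TU.Wall
import Pool.Agent.H47.ST.CellA

/-!
# Project TU: from cochains on finite sets to cochains on sequences and back
-/

set_option autoImplicit false

namespace Pool.Agent.H21.TU

open Pool.Agent.H47.ST (Co Simp In dd dX cut co sgn)

variable {ι F : Type*} [Fintype ι] [DecidableEq ι] [Field F]

open Classical in
/-- the value on the set of the first `p + 1` entries, `0` if they are not increasing -/
noncomputable def hat (p : ℕ) (u : Co ι F) : K (ι → ℤ) F := fun s =>
  if (∀ i < p, s i < s (i + 1)) ∧ Ch p s then u ((Finset.range (p + 1)).image s) else 0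

theorem Dep.hat (p : ℕ) (u : Co ι F) : Dep p (TU.hat p u) := by
  classical
  intro s t hst
  have h1 : (∀ i < p, s i < s (i + 1)) ↔ (∀ i < p, t i < t (i + 1)) := by
    refine forall_congr' fun i => forall_congr' fun hi => ?_
    rw [hst i (by omega), hst (i + 1) (by omega)]
  have h2 : Ch p s ↔ Ch p t := by
    refine forall_congr' fun i => forall_congr' fun j => forall_congr' fun hij =>
      forall_congr' fun hj => ?_
    rw [hst i (by omega), hst j (by omega)]
  have h3 : (Finset.range (p + 1)).image s = (Finset.range (p + 1)).image t := by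
    refine Finset.image_congr fun i hi => ?_
    have hi' := Finset.mem_range.1 (Finset.mem_coe.1 hi)
    exact hst i (by omega)
  unfold TU.hat
  simp only [h1, h2, h3]

open Classical in
/-- the vertex number `i` of a simplex -/
noncomputable def en (σ : Finset (ι → ℤ)) (i : ℕ) : ι → ℤ :=
  if h : ∃ v ∈ σ, (σ.filter (fun w => w < v)).card = i then Classical.choose h else 0

open Classical in
/-- a cochain on sequences as a function of the simplices with `p + 1` vertices -/
noncomputable def fl (p : ℕ) (c : K (ι → ℤ) F) : Co ι F := fun σ =>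
  if Simp σ ∧ σ.card = p + 1 then c (en σ) else 0

open Classical in
/-- the number of smaller vertices -/
noncomputable def Hat_rk (σ : Finset (ι → ℤ)) (v : ι → ℤ) : ℕ :=
  (σ.filter (fun w => w < v)).card

omit [Fintype ι] [DecidableEq ι] in
theorem Hat_rk_lt {σ : Finset (ι → ℤ)} {v w : ι → ℤ} (hv : v ∈ σ) (h : v < w) :
    Hat_rk σ v < Hat_rk σ w := by
  classical
  unfold Hat_rk
  refine Finset.card_lt_card ?_
  rw [Finset.ssubset_iff_of_subset]
  · exact ⟨v, Finset.mem_filter.2 ⟨hv, h⟩, fun h' => lt_irrefl _ (Finset.mem_filter.1 h').2⟩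
  · intro u hu
    have hu' := Finset.mem_filter.1 hu
    exact Finset.mem_filter.2 ⟨hu'.1, hu'.2.trans h⟩

omit [Fintype ι] [DecidableEq ι] in
theorem Hat_rk_le {σ : Finset (ι → ℤ)} {v w : ι → ℤ} (h : v ≤ w) : Hat_rk σ v ≤ Hat_rk σ w := by
  classical
  unfold Hat_rk
  refine Finset.card_le_card fun u hu => ?_
  have hu' := Finset.mem_filter.1 hu
  exact Finset.mem_filter.2 ⟨hu'.1, hu'.2.trans_le h⟩

omit [Fintype ι] [DecidableEq ι] in
theorem Hat_rk_card {σ : Finset (ι → ℤ)} {v : ι → ℤ} (hv : v ∈ σ) : Hat_rk σ v < σ.card := by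
  classical
  unfold Hat_rk
  refine Finset.card_lt_card ?_
  rw [Finset.ssubset_iff_of_subset (Finset.filter_subset _ _)]
  exact ⟨v, hv, fun h' => lt_irrefl _ (Finset.mem_filter.1 h').2⟩

omit [Fintype ι] [DecidableEq ι] in
/-- in a simplex a vertex with smaller rank is smaller -/
theorem Hat_lt_of_rk {σ : Finset (ι → ℤ)} (h : Simp σ) {v w : ι → ℤ} (hv : v ∈ σ) (hw : w ∈ σ)
    (hr : Hat_rk σ v < Hat_rk σ w) : v < w := by
  rcases h v hv w hw with h' | h'
  · refine lt_of_le_of_ne h'.1 fun e => ?_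
    rw [e] at hr
    exact lt_irrefl _ hr
  · exact absurd (Hat_rk_le (σ := σ) h'.1) (by omega)

omit [Fintype ι] [DecidableEq ι] in
theorem Hat_rk_inj {σ : Finset (ι → ℤ)} (h : Simp σ) {v w : ι → ℤ} (hv : v ∈ σ) (hw : w ∈ σ)
    (hr : Hat_rk σ v = Hat_rk σ w) : v = w := by
  rcases h v hv w hw with h' | h'
  · by_contra hne
    have h1 := Hat_rk_lt hv (lt_of_le_of_ne h'.1 hne)
    omega
  · by_contra hne
    have h1 := Hat_rk_lt hw (lt_of_le_of_ne h'.1 (Ne.symm hne))
    omega

omit [Fintype ι] [DecidableEq ι] in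
theorem Hat_exists {σ : Finset (ι → ℤ)} (h : Simp σ) {i : ℕ} (hi : i < σ.card) :
    ∃ v ∈ σ, Hat_rk σ v = i := by
  classical
  have h1 : σ.image (Hat_rk σ) = Finset.range σ.card := by
    refine Finset.eq_of_subset_of_card_le (fun j hj => ?_) ?_
    · obtain ⟨v, hv, rfl⟩ := Finset.mem_image.1 hj
      exact Finset.mem_range.2 (Hat_rk_card hv)
    · rw [Finset.card_range, Finset.card_image_of_injOn]
      intro v hv w hw e
      exact Hat_rk_inj h hv hw e
  have h2 : i ∈ σ.image (Hat_rk σ) := by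
    rw [h1]
    exact Finset.mem_range.2 hi
  obtain ⟨v, hv, e⟩ := Finset.mem_image.1 h2
  exact ⟨v, hv, e⟩

omit [Fintype ι] [DecidableEq ι] in
theorem Hat_en {σ : Finset (ι → ℤ)} (h : Simp σ) {i : ℕ} (hi : i < σ.card) :
    en σ i ∈ σ ∧ Hat_rk σ (en σ i) = i := by
  classical
  have h1 : ∃ v ∈ σ, (σ.filter (fun w => w < v)).card = i := Hat_exists h hi
  unfold en
  rw [dif_pos h1]
  exact Classical.choose_spec h1

omit [Fintype ι] [DecidableEq ι] in
theorem Hat_en_eq {σ : Finset (ι → ℤ)} (h : Simp σ) {v : ι → ℤ} (hv : v ∈ σ) :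
    en σ (Hat_rk σ v) = v := by
  obtain ⟨h1, h2⟩ := Hat_en h (Hat_rk_card hv)
  exact Hat_rk_inj h h1 hv h2

/-- strict monotonicity -/
theorem Hat_mono {p : ℕ} {s : ℕ → ι → ℤ} (h : ∀ i < p, s i < s (i + 1)) :
    ∀ j ≤ p, ∀ i < j, s i < s j := by
  intro j
  induction j with
  | zero => intro _ i hi; omega
  | succ j ih =>
    intro hj i hi
    rcases Nat.lt_or_ge i j with h1 | h1
    · exact (ih (by omega) i h1).trans (h j (by omega))
    · obtain rfl : i = j := by omega
      exact h i (by omega)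

theorem Hat_inj {p : ℕ} {s : ℕ → ι → ℤ} (h : ∀ i < p, s i < s (i + 1)) {i j : ℕ} (hi : i ≤ p)
    (hj : j ≤ p) (e : s i = s j) : i = j := by
  rcases lt_trichotomy i j with h1 | h1 | h1
  · exact absurd e (Hat_mono h j hj i h1).ne
  · exact h1
  · exact absurd e.symm (Hat_mono h i hi j h1).ne

theorem Hat_filter {p : ℕ} {s : ℕ → ι → ℤ} (h : ∀ i < p, s i < s (i + 1)) {i : ℕ} (hi : i ≤ p) :
    Hat_rk ((Finset.range (p + 1)).image s) (s i) = i := by
  classical
  unfold Hat_rk
  have h1 : ((Finset.range (p + 1)).image s).filter (fun w => w < s i) =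
      (Finset.range i).image s := by
    ext w
    simp only [Finset.mem_filter, Finset.mem_image, Finset.mem_range]
    constructor
    · rintro ⟨⟨j, hj, rfl⟩, hlt⟩
      refine ⟨j, ?_, rfl⟩
      by_contra hij
      rcases Nat.lt_or_ge i j with h2 | h2
      · exact lt_asymm hlt (Hat_mono h j (by omega) i h2)
      · obtain rfl : i = j := by omega
        exact lt_irrefl _ hlt
    · rintro ⟨j, hj, rfl⟩
      exact ⟨⟨j, by omega, rfl⟩, Hat_mono h i hi j hj⟩
  rw [h1, Finset.card_image_of_injOn, Finset.card_range]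
  intro a ha b hb e
  have ha' := Finset.mem_range.1 (Finset.mem_coe.1 ha)
  have hb' := Finset.mem_range.1 (Finset.mem_coe.1 hb)
  exact Hat_inj h (by omega) (by omega) e

/-- the enumeration of a simplex -/
theorem en_spec {p : ℕ} {σ : Finset (ι → ℤ)} (h : Simp σ) (hc : σ.card = p + 1) :
    (∀ i < p, en σ i < en σ (i + 1)) ∧ Ch p (en σ) ∧
      (Finset.range (p + 1)).image (en σ) = σ := by
  classical
  have hm : ∀ i ≤ p, en σ i ∈ σ ∧ Hat_rk σ (en σ i) = i := fun i hi => Hat_en h (by omega)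
  refine ⟨fun i hi => ?_, fun i j hij hj => ?_, ?_⟩
  · obtain ⟨h1, h2⟩ := hm i (by omega)
    obtain ⟨h3, h4⟩ := hm (i + 1) (by omega)
    exact Hat_lt_of_rk h h1 h3 (by omega)
  · obtain ⟨h1, h2⟩ := hm i (by omega)
    obtain ⟨h3, h4⟩ := hm j hj
    rcases h _ h1 _ h3 with h' | h'
    · exact h'
    · have h5 := Hat_rk_le (σ := σ) h'.1
      have h6 : i = j := by omega
      rw [h6]
      exact ⟨le_rfl, fun k => by simp⟩
  · ext v
    simp only [Finset.mem_image, Finset.mem_range]
    constructor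
    · rintro ⟨i, hi, rfl⟩
      exact (hm i (by omega)).1
    · intro hv
      exact ⟨Hat_rk σ v, by have := Hat_rk_card hv; omega, Hat_en_eq h hv⟩

/-- an increasing sequence is the enumeration of its set of entries -/
theorem en_image {p : ℕ} {s : ℕ → ι → ℤ} (h : ∀ i < p, s i < s (i + 1)) (hs : Ch p s) :
    Simp ((Finset.range (p + 1)).image s) ∧ ((Finset.range (p + 1)).image s).card = p + 1 ∧
      ∀ i ≤ p, en ((Finset.range (p + 1)).image s) i = s i := by
  classical
  have hS : Simp ((Finset.range (p + 1)).image s) := by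
    intro v hv w hw
    obtain ⟨i, hi, rfl⟩ := Finset.mem_image.1 hv
    obtain ⟨j, hj, rfl⟩ := Finset.mem_image.1 hw
    rw [Finset.mem_range] at hi hj
    rcases le_total i j with hij | hij
    · exact Or.inl (hs i j hij (by omega))
    · exact Or.inr (hs j i hij (by omega))
  refine ⟨hS, ?_, fun i hi => ?_⟩
  · rw [Finset.card_image_of_injOn, Finset.card_range]
    intro a ha b hb e
    have ha' := Finset.mem_range.1 (Finset.mem_coe.1 ha)
    have hb' := Finset.mem_range.1 (Finset.mem_coe.1 hb)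
    exact Hat_inj h (by omega) (by omega) e
  · have h1 : s i ∈ (Finset.range (p + 1)).image s :=
      Finset.mem_image.2 ⟨i, Finset.mem_range.2 (by omega), rfl⟩
    have h2 := Hat_en_eq hS h1
    rwa [Hat_filter h hi] at h2

theorem hat_fl {p : ℕ} {c : K (ι → ℤ) F} (hc : Dep p c) {s : ℕ → ι → ℤ}
    (h : ∀ i < p, s i < s (i + 1)) (hs : Ch p s) : hat p (fl p c) s = c s := by
  classical
  obtain ⟨h1, h2, h3⟩ := en_image h hs
  unfold hat fl
  rw [if_pos ⟨h, hs⟩, if_pos ⟨h1, h2⟩]
  exact hc _ _ fun i hi => h3 i hi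

theorem fl_hat {p : ℕ} (u : Co ι F) {σ : Finset (ι → ℤ)} (h : Simp σ) (hc : σ.card = p + 1) :
    fl p (hat p u) σ = u σ := by
  classical
  obtain ⟨h1, h2, h3⟩ := en_spec h hc
  have h4 : hat p u (en σ) = u σ := by
    unfold hat
    rw [if_pos ⟨h1, h2⟩, h3]
  unfold fl
  rw [if_pos ⟨h, hc⟩]
  exact h4

/-- the coboundary on increasing sequences -/
theorem d_hat {p : ℕ} (u : Co ι F) {s : ℕ → ι → ℤ} (h : ∀ i < p + 1, s i < s (i + 1))
    (hs : Ch (p + 1) s) : d p (hat p u) s = hat (p + 1) (dd u) s := by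
  classical
  have hinj : ∀ a ∈ Finset.range (p + 2), ∀ b ∈ Finset.range (p + 2), s a = s b → a = b := by
    intro a ha b hb e
    rw [Finset.mem_range] at ha hb
    exact Hat_inj h (by omega) (by omega) e
  have hR : hat (p + 1) (dd u) s = dd u ((Finset.range (p + 2)).image s) := by
    unfold hat
    rw [if_pos ⟨h, hs⟩]
  rw [hR, H47.ST.dd_apply, Finset.sum_image (fun a ha b hb e => hinj a ha b hb e)]
  unfold d
  refine Finset.sum_congr rfl fun i hi => ?_
  rw [Finset.mem_range] at hi
  have hsg : sgn F ((Finset.range (p + 2)).image s) (s i) = (-1) ^ i := by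
    have h1 := Hat_filter h (i := i) (by omega)
    unfold Hat_rk at h1
    unfold sgn
    rw [h1]
  rw [hsg]
  congr 1
  have hd : ∀ j < p, del i s j < del i s (j + 1) := by
    intro j hj
    simp only [del]
    split_ifs with h1 h2 h2
    · exact h j (by omega)
    · exact Hat_mono h (j + 1 + 1) (by omega) j (by omega)
    · exact absurd (lt_trans (Nat.lt_succ_self j) h2) h1
    · exact h (j + 1) (by omega)
  unfold hat
  rw [if_pos ⟨hd, hs.del i⟩]
  congr 1
  ext w
  simp only [Finset.mem_image, Finset.mem_range, Finset.mem_erase]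
  constructor
  · rintro ⟨j, hj, rfl⟩
    simp only [del]
    split_ifs with h1
    · refine ⟨fun e => ?_, j, by omega, rfl⟩
      have h2 := hinj j (Finset.mem_range.2 (by omega)) i (Finset.mem_range.2 (by omega)) e
      omega
    · refine ⟨fun e => ?_, j + 1, by omega, rfl⟩
      have h2 := hinj (j + 1) (Finset.mem_range.2 (by omega)) i (Finset.mem_range.2 (by omega)) e
      omega
  · rintro ⟨hne, j, hj, rfl⟩
    have hji : j ≠ i := fun e => hne (by rw [e])
    rcases Nat.lt_or_ge j i with h1 | h1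
    · refine ⟨j, by omega, ?_⟩
      simp only [del]
      rw [if_pos h1]
    · refine ⟨j - 1, by omega, ?_⟩
      simp only [del]
      rw [if_neg (by omega)]
      congr 1
      omega

/-- the coboundary on simplices -/
theorem dd_fl {p : ℕ} {c : K (ι → ℤ) F} (hc : Dep p c) {σ : Finset (ι → ℤ)} (h : Simp σ)
    (hc' : σ.card = p + 2) : dd (fl p c) σ = fl (p + 1) (d p c) σ := by
  classical
  obtain ⟨h1, h2, h3⟩ := en_spec (p := p + 1) h hc'
  have h4 := d_hat (fl p c) h1 h2
  have h5 : hat (p + 1) (dd (fl p c)) (en σ) = dd (fl p c) σ := by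
    unfold hat
    rw [if_pos ⟨h1, h2⟩, h3]
  have h6 : d p (hat p (fl p c)) (en σ) = d p c (en σ) := by
    unfold d
    refine Finset.sum_congr rfl fun i hi => ?_
    rw [Finset.mem_range] at hi
    congr 1
    refine hat_fl hc ?_ (h2.del i)
    intro j hj
    simp only [del]
    split_ifs with h7 h8 h8
    · exact h1 j (by omega)
    · exact Hat_mono h1 (j + 1 + 1) (by omega) j (by omega)
    · exact absurd (lt_trans (Nat.lt_succ_self j) h8) h7
    · exact h1 (j + 1) (by omega)
  have h7 : fl (p + 1) (d p c) σ = d p c (en σ) := by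
    unfold fl
    rw [if_pos ⟨h, hc'⟩]
  rw [h7, ← h6, h4, h5]

/-- the entries of a top simplex increase -/
theorem kv_lt (v : ι → ℤ) (π : Fin (Fintype.card ι) ≃ ι) {i : ℕ} (hi : i < Fintype.card ι) :
    kv v π i < kv v π (i + 1) := by
  refine lt_of_le_of_ne (fun k => ?_) fun e => ?_
  · simp only [kv]
    split_ifs <;> omega
  · have h1 := congrFun e (π ⟨i, hi⟩)
    simp only [kv, Equiv.symm_apply_apply] at h1
    rw [if_neg (lt_irrefl _), if_pos (Nat.lt_succ_self i)] at h1
    omega

/-- the value of a hat on a top simplex -/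
theorem hat_kv (v : ι → ℤ) (π : Fin (Fintype.card ι) ≃ ι) {p : ℕ} (hp : p ≤ Fintype.card ι)
    (u : Co ι F) : hat p u (kv v π) = u ((Finset.range (p + 1)).image (kv v π)) := by
  classical
  unfold hat
  rw [if_pos ⟨fun i hi => kv_lt v π (by omega), ch_kv v π p⟩]

/-- the coboundary of a hat on a top simplex -/
theorem d_hat_kv (v : ι → ℤ) (π : Fin (Fintype.card ι) ≃ ι) {p : ℕ}
    (hp : p + 1 ≤ Fintype.card ι) (u : Co ι F) :
    d p (hat p u) (kv v π) = hat (p + 1) (dd u) (kv v π) := d_hat u (fun _ hi => kv_lt v π (by omega)) (ch_kv v π (p + 1))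

end Pool.Agent.H21.TU
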