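import Pool.Agent.H21.TU.Sq

/-!
# Project TU: integral over the top dimensional Kuhn simplices
-/

set_option autoImplicit false

namespace Pool.Agent.H21.TU

variable {ι F : Type*} [Fintype ι] [DecidableEq ι] [Field F]

/-- vertices at distance at most one -/
def Near (v w : ι → ℤ) : Prop := ∀ i, |v i - w i| ≤ 1

/-- the first `p + 1` entries form a (perhaps degenerate) Kuhn simplex -/
def Ch (p : ℕ) (s : ℕ → ι → ℤ) : Prop := ∀ i j, i ≤ j → j ≤ p → s i ≤ s j ∧ s j ≤ s i + 1

/-- the vertices of the top simplex with first vertex `v` and directions `π 0, π 1, …` -/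
def kv (v : ι → ℤ) (π : Fin (Fintype.card ι) ≃ ι) (k : ℕ) : ι → ℤ :=
  fun i => v i + if ((π.symm i : Fin (Fintype.card ι)) : ℕ) < k then 1 else 0

/-- a fixed enumeration of the directions -/
noncomputable def ref (ι : Type*) [Fintype ι] [DecidableEq ι] : Fin (Fintype.card ι) ≃ ι :=
  (Fintype.equivFin ι).symm

/-- orientation of the top simplices -/
noncomputable def sg (F : Type*) [Field F] (π : Fin (Fintype.card ι) ≃ ι) : F :=
  ((Equiv.Perm.sign (π.trans (ref ι).symm) : ℤ) : F)

/-- integral over the top simplices with first vertex in `R` -/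
noncomputable def Int (R : Finset (ι → ℤ)) (c : K (ι → ℤ) F) : F :=
  ∑ v ∈ R, ∑ π : Fin (Fintype.card ι) ≃ ι, sg F π * c (kv v π)

theorem Near.symm {v w : ι → ℤ} (h : Near v w) : Near w v := fun i => by
  rw [abs_sub_comm]; exact h i

theorem Near.refl (v : ι → ℤ) : Near v v := fun i => by simp

theorem Ch.near {p : ℕ} {s : ℕ → ι → ℤ} (h : Ch p s) {i j : ℕ} (hi : i ≤ p) (hj : j ≤ p) :
    Near (s i) (s j) := by
  intro k
  rcases le_total i j with hij | hij
  · have h1 := (h i j hij hj).1 k
    have h2 := (h i j hij hj).2 k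
    simp only [Pi.add_apply, Pi.one_apply] at h2
    rw [abs_le]; constructor <;> linarith
  · have h1 := (h j i hij hi).1 k
    have h2 := (h j i hij hi).2 k
    simp only [Pi.add_apply, Pi.one_apply] at h2
    rw [abs_le]; constructor <;> linarith

theorem Ch.mono {p q : ℕ} (hpq : p ≤ q) {s : ℕ → ι → ℤ} (h : Ch q s) : Ch p s :=
  fun i j hij hj => h i j hij (hj.trans hpq)

theorem Ch.sh {p q : ℕ} {s : ℕ → ι → ℤ} (h : Ch (p + q) s) : Ch q (sh p s) :=
  fun i j hij hj => h (i + p) (j + p) (by omega) (by omega)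

theorem Ch.del {p : ℕ} {s : ℕ → ι → ℤ} (h : Ch (p + 1) s) (i : ℕ) : Ch p (del i s) := by
  intro a b hab hb
  simp only [TU.del]
  split_ifs with h1 h2 h2
  · exact h a b hab (by omega)
  · exact h a (b + 1) (by omega) (by omega)
  · exact absurd (lt_of_le_of_lt hab h2) h1
  · exact h (a + 1) (b + 1) (by omega) (by omega)

theorem ch_kv (v : ι → ℤ) (π : Fin (Fintype.card ι) ≃ ι) (p : ℕ) : Ch p (kv v π) := by
  intro i j hij _
  constructor
  · intro k
    simp only [kv]
    split_ifs <;> first | omega | (exfalso; omega)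
  · intro k
    simp only [kv, Pi.add_apply, Pi.one_apply]
    split_ifs <;> omega

theorem kv_zero (v : ι → ℤ) (π : Fin (Fintype.card ι) ≃ ι) : kv v π 0 = v := by
  funext i; simp [kv]

theorem Int_add (R : Finset (ι → ℤ)) (a b : K (ι → ℤ) F) : Int R (a + b) = Int R a + Int R b := by
  unfold Int
  rw [← Finset.sum_add_distrib]
  refine Finset.sum_congr rfl fun v _ => ?_
  rw [← Finset.sum_add_distrib]
  refine Finset.sum_congr rfl fun π _ => ?_
  rw [Pi.add_apply, mul_add]

theorem Int_smul (R : Finset (ι → ℤ)) (t : F) (a : K (ι → ℤ) F) : Int R (t • a) = t * Int R a := by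
  unfold Int
  rw [Finset.mul_sum]
  refine Finset.sum_congr rfl fun v _ => ?_
  rw [Finset.mul_sum]
  refine Finset.sum_congr rfl fun π _ => ?_
  rw [Pi.smul_apply, smul_eq_mul]; ring

theorem Int_congr (R : Finset (ι → ℤ)) {a b : K (ι → ℤ) F}
    (h : ∀ v ∈ R, ∀ π : Fin (Fintype.card ι) ≃ ι, a (kv v π) = b (kv v π)) : Int R a = Int R b := by
  unfold Int
  refine Finset.sum_congr rfl fun v hv => Finset.sum_congr rfl fun π _ => ?_
  rw [h v hv π]

omit [Fintype ι] [DecidableEq ι] [Field F] in
theorem Int_rot {N D : ℕ} (h : N = D + 1) (k : Fin N) :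
    ((finRotate N k : Fin N) : ℕ) = if (k : ℕ) = D then 0 else (k : ℕ) + 1 := by
  subst h
  split_ifs with hk
  · have h1 : k = Fin.last D := Fin.ext hk
    rw [h1, finRotate_last]
    rfl
  · exact coe_finRotate_of_ne_last fun h1 => hk (by rw [h1]; rfl)

omit [Fintype ι] [DecidableEq ι] [Field F] in
theorem Int_rot_sign {N D : ℕ} (h : N = D + 1) :
    Equiv.Perm.sign (finRotate N) = (-1) ^ D := by
  subst h
  have h1 := sign_finRotate (D + 1)
  rwa [Nat.add_sub_cancel] at h1

/-- the orientation of a permuted simplex -/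
theorem Int_sg_trans (f : Equiv.Perm (Fin (Fintype.card ι)))
    (π : Fin (Fintype.card ι) ≃ ι) :
    sg F (f.trans π) = ((Equiv.Perm.sign f : ℤ) : F) * sg F π := by
  unfold sg
  rw [Equiv.trans_assoc, Equiv.Perm.sign_trans]
  push_cast
  ring

/-- the inner faces cancel -/
theorem Int_inner {D : ℕ} (hD : Fintype.card ι = D + 1) {w : K (ι → ℤ) F} (hw : Dep D w)
    (v : ι → ℤ) {i : ℕ} (hi0 : 0 < i) (hi : i < D + 1) :
    ∑ π : Fin (Fintype.card ι) ≃ ι, sg F π * w (del i (kv v π)) = 0 := by
  classical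
  have ha : i - 1 < Fintype.card ι := by omega
  have hb : i < Fintype.card ι := by omega
  have hab : (⟨i - 1, ha⟩ : Fin (Fintype.card ι)) ≠ ⟨i, hb⟩ := by
    intro h
    have h1 := congrArg Fin.val h
    simp only at h1
    omega
  refine Finset.sum_involution
    (fun π _ => (Equiv.swap (⟨i - 1, ha⟩ : Fin (Fintype.card ι)) ⟨i, hb⟩).trans π) ?_ ?_ ?_ ?_
  · intro π _
    have h1 : w (del i (kv v ((Equiv.swap (⟨i - 1, ha⟩ : Fin (Fintype.card ι)) ⟨i, hb⟩).trans π)))
        = w (del i (kv v π)) := by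
      refine hw _ _ fun j hj => ?_
      have key : ∀ m : ℕ, (m ≤ i - 1 ∨ i < m) →
          kv v ((Equiv.swap (⟨i - 1, ha⟩ : Fin (Fintype.card ι)) ⟨i, hb⟩).trans π) m =
            kv v π m := by
        intro m hm
        funext k
        simp only [kv, Equiv.symm_trans_apply, Equiv.symm_swap]
        congr 1
        refine if_congr ?_ rfl rfl
        by_cases h2 : π.symm k = ⟨i - 1, ha⟩
        · rw [h2, Equiv.swap_apply_left]
          simp only
          omega
        · by_cases h3 : π.symm k = ⟨i, hb⟩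
          · rw [h3, Equiv.swap_apply_right]
            simp only
            omega
          · rw [Equiv.swap_apply_of_ne_of_ne h2 h3]
      simp only [del]
      split_ifs with h2
      · exact key j (Or.inl (by omega))
      · exact key (j + 1) (Or.inr (by omega))
    rw [h1, Int_sg_trans, Equiv.Perm.sign_swap hab]
    push_cast
    ring
  · intro π _ _ h
    have h1 := congrArg (fun f : Fin (Fintype.card ι) ≃ ι => f ⟨i, hb⟩) h
    simp only [Equiv.trans_apply, Equiv.swap_apply_right] at h1
    exact hab (π.injective h1)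
  · intro π _
    exact Finset.mem_univ _
  · intro π _
    ext k
    simp only [Equiv.trans_apply, Equiv.swap_apply_self]

/-- the face `0` is the last face of the rotated simplex -/
theorem Int_outer {D : ℕ} (hD : Fintype.card ι = D + 1) {w : K (ι → ℤ) F} (hw : Dep D w)
    (v : ι → ℤ) (π : Fin (Fintype.card ι) ≃ ι) :
    w (del 0 (kv v π)) = w (kv (v + Pi.single (π ⟨0, by omega⟩) 1)
      ((finRotate (Fintype.card ι)).trans π)) := by
  classical
  refine hw _ _ fun j hj => ?_
  funext k
  obtain ⟨m, hm⟩ : ∃ m, finRotate (Fintype.card ι) m = π.symm k :=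
    (finRotate (Fintype.card ι)).surjective _
  have h1 : ((((finRotate (Fintype.card ι)).trans π).symm k : Fin (Fintype.card ι)) : ℕ) = m := by
    have h1 : ((finRotate (Fintype.card ι)).trans π).symm k =
        (finRotate (Fintype.card ι)).symm (π.symm k) := rfl
    rw [h1, ← hm, Equiv.symm_apply_apply]
  have h2 := Int_rot hD m
  rw [hm] at h2
  have hmD : (m : ℕ) < D + 1 := by
    have := m.2
    omega
  show v k + (if ((π.symm k : Fin (Fintype.card ι)) : ℕ) < j + 1 then 1 else 0) =
    (v k + (Pi.single (π ⟨0, by omega⟩) 1 : ι → ℤ) k) +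
      (if ((((finRotate (Fintype.card ι)).trans π).symm k : Fin (Fintype.card ι)) : ℕ) < j
        then 1 else 0)
  by_cases h3 : (m : ℕ) = D
  · rw [if_pos h3] at h2
    have h4 : k = π ⟨0, by omega⟩ := by
      rw [← Equiv.symm_apply_eq]
      exact Fin.ext h2
    rw [if_pos (by rw [h2]; omega), if_neg (by rw [h1]; omega), ← h4, Pi.single_eq_same, add_zero]
  · rw [if_neg h3] at h2
    have h4 : k ≠ π ⟨0, by omega⟩ := by
      intro h5
      rw [h5, Equiv.symm_apply_apply] at h2
      simp only at h2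
      omega
    rw [Pi.single_eq_of_ne h4, add_zero]
    by_cases h5 : (m : ℕ) < j
    · rw [if_pos (by rw [h2]; omega), if_pos (by rw [h1]; exact h5)]
    · rw [if_neg (by rw [h2]; omega), if_neg (by rw [h1]; exact h5)]

/-- Stokes: every face of a top simplex on which `w` does not vanish is either well inside or
outside of `R`. -/
theorem Int_d {D : ℕ} (hD : Fintype.card ι = D + 1) (R : Finset (ι → ℤ)) {w : K (ι → ℤ) F}
    (hw : Dep D w)
    (h : ∀ s : ℕ → ι → ℤ, Ch D s → w s ≠ 0 →
      (∀ v, Near v (s 0) → v ∈ R) ∨ (∀ v, Near v (s 0) → v ∉ R)) :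
    Int R (d D w) = 0 := by
  classical
  have e1 : Int R (d D w) = ∑ i ∈ Finset.range (D + 2), (-1) ^ i *
      ∑ v ∈ R, ∑ π : Fin (Fintype.card ι) ≃ ι, sg F π * w (del i (kv v π)) := by
    unfold Int d
    simp only [Finset.mul_sum]
    symm
    rw [Finset.sum_comm]
    refine Finset.sum_congr rfl fun v _ => ?_
    rw [Finset.sum_comm]
    refine Finset.sum_congr rfl fun π _ => Finset.sum_congr rfl fun i _ => ?_
    ring
  have e2 : ∀ i ∈ Finset.range D, (-1 : F) ^ (i + 1) *
      ∑ v ∈ R, ∑ π : Fin (Fintype.card ι) ≃ ι, sg F π * w (del (i + 1) (kv v π)) = 0 := by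
    intro i hi
    rw [Finset.mem_range] at hi
    rw [Finset.sum_eq_zero fun v _ => Int_inner hD hw v (Nat.succ_pos i) (by omega), mul_zero]
  have e3 : ∀ π : Fin (Fintype.card ι) ≃ ι,
      ∑ v ∈ R, w (del 0 (kv v π)) =
        ∑ v ∈ R, w (kv v ((finRotate (Fintype.card ι)).trans π)) := by
    intro π
    have h0 : ∀ v, w (del 0 (kv v π)) = w (kv (v + Pi.single (π ⟨0, by omega⟩) 1)
      ((finRotate (Fintype.card ι)).trans π)) := fun v => Int_outer hD hw v π
    simp only [h0]
    set e : ι → ℤ := Pi.single (π ⟨0, by omega⟩) 1 with he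
    set π' := (finRotate (Fintype.card ι)).trans π with hπ'
    have hnear : ∀ v : ι → ℤ, Near v (v + e) ∧ Near (v + e) v := by
      intro v
      have h1 : Near v (v + e) := by
        intro k
        rw [Pi.add_apply, sub_add_cancel_left, abs_neg, he]
        by_cases hk : k = π ⟨0, by omega⟩
        · rw [hk, Pi.single_eq_same]
          simp
        · rw [Pi.single_eq_of_ne hk]
          simp
      exact ⟨h1, h1.symm⟩
    have hiff : ∀ v, w (kv (v + e) π') ≠ 0 → (v ∈ R ↔ v + e ∈ R) := by
      intro v hv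
      rcases h _ (ch_kv (v + e) π' D) hv with h1 | h1
      · rw [kv_zero] at h1
        exact ⟨fun _ => h1 _ (Near.refl _), fun _ => h1 _ (hnear v).1⟩
      · rw [kv_zero] at h1
        exact ⟨fun h2 => absurd h2 (h1 _ (hnear v).1), fun h2 => absurd h2 (h1 _ (Near.refl _))⟩
    refine Finset.sum_bij_ne_zero (fun v _ _ => v + e) (fun v hv hne => (hiff v hne).1 hv)
      (fun v _ _ v' _ _ hvv => add_right_cancel hvv) (fun v hv hne => ?_) (fun v _ _ => rfl)
    refine ⟨v - e, ?_, ?_, ?_⟩
    · exact (hiff (v - e) (by rw [sub_add_cancel]; exact hne)).2 (by rw [sub_add_cancel]; exact hv)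
    · rw [sub_add_cancel]
      exact hne
    · rw [sub_add_cancel]
  have e4 : ∑ v ∈ R, ∑ π : Fin (Fintype.card ι) ≃ ι, sg F π * w (del 0 (kv v π)) =
      (-1) ^ D * ∑ v ∈ R, ∑ π : Fin (Fintype.card ι) ≃ ι, sg F π * w (kv v π) := by
    rw [Finset.sum_comm]
    simp only [← Finset.mul_sum]
    simp only [e3]
    rw [Finset.sum_comm (s := R)]
    simp only [← Finset.mul_sum]
    rw [Finset.mul_sum]
    rw [← Equiv.sum_comp (Equiv.mk (fun π : Fin (Fintype.card ι) ≃ ι =>
      (finRotate (Fintype.card ι)).trans π) (fun π => (finRotate (Fintype.card ι)).symm.trans π)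
      (fun π => by
        show (finRotate (Fintype.card ι)).symm.trans ((finRotate (Fintype.card ι)).trans π) = π
        rw [← Equiv.trans_assoc, Equiv.symm_trans_self, Equiv.refl_trans])
      (fun π => by
        show (finRotate (Fintype.card ι)).trans ((finRotate (Fintype.card ι)).symm.trans π) = π
        rw [← Equiv.trans_assoc, Equiv.self_trans_symm, Equiv.refl_trans]))
      (fun π => (-1) ^ D * (sg F π * ∑ v ∈ R, w (kv v π)))]
    refine Finset.sum_congr rfl fun π _ => ?_
    simp only [Equiv.coe_fn_mk]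
    rw [Int_sg_trans, Int_rot_sign hD]
    push_cast
    rw [← mul_assoc, ← mul_assoc, ← mul_pow]
    norm_num
  have e5 : ∀ v π, w (del (D + 1) (kv v π)) = w (kv v π) := fun v π =>
    hw _ _ fun j hj => by simp only [del]; rw [if_pos (by omega)]
  rw [e1, Finset.sum_range_succ, Finset.sum_range_succ', Finset.sum_eq_zero e2, e4]
  simp only [e5]
  rw [pow_succ]
  ring

end Pool.Agent.H21.TU
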