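import Pool.Agent.H21.TU.Hat
import Pool.Agent.H47.ST.Fine

/-!
# Project TU: local cochains made invariant
-/

set_option autoImplicit false

namespace Pool.Agent.H21.TU

open Pool.Agent.H47.ST (Co Simp In dd dX cut co sgn tr Inv)

variable {ι F : Type*} [Fintype ι] [DecidableEq ι] [Field F]

open Classical in
/-- the part in `B` of a cochain, made `L`-invariant -/
noncomputable def lcr (L : AddSubgroup (ι → ℤ)) (B : Set (ι → ℤ)) (p : ℕ) (c : K (ι → ℤ) F) :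
    Co ι F := fun σ =>
  if h : ∃ l ∈ L, ∀ v ∈ σ, v + l ∈ B then fl p c (tr (Classical.choose h) σ) else 0

/-- the part in `B` of a cochain, made `L`-invariant, on the simplices in `A` -/
noncomputable def lc (L : AddSubgroup (ι → ℤ)) (A B : Set (ι → ℤ)) (p : ℕ) (c : K (ι → ℤ) F) :
    Co ι F := cut (In A) (lcr L B p c)

/-- different translates of `B` are disjoint -/
def Sepd (L : AddSubgroup (ι → ℤ)) (B : Set (ι → ℤ)) : Prop :=
  ∀ l ∈ L, ∀ v ∈ B, v + l ∈ B → l = 0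

theorem Loc_mem_tr {l : ι → ℤ} {σ : Finset (ι → ℤ)} {w : ι → ℤ} :
    w ∈ tr l σ ↔ ∃ v ∈ σ, v + l = w := by
  unfold tr
  simp only [Finset.mem_map]
  rfl

theorem fl_card {p : ℕ} (c : K (ι → ℤ) F) {σ : Finset (ι → ℤ)} (h : fl p c σ ≠ 0) :
    Simp σ ∧ σ.card = p + 1 := by
  by_contra h1
  exact h (by unfold fl; rw [if_neg h1])

theorem Loc_card_tr (l : ι → ℤ) (σ : Finset (ι → ℤ)) : (tr l σ).card = σ.card := by
  unfold tr; rw [Finset.card_map]

theorem lcr_eq {L : AddSubgroup (ι → ℤ)} {B : Set (ι → ℤ)} (hs : Sepd L B) {p : ℕ}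
    (c : K (ι → ℤ) F) {σ : Finset (ι → ℤ)} {l : ι → ℤ} (hl : l ∈ L) (h : ∀ v ∈ σ, v + l ∈ B) :
    lcr L B p c σ = fl p c (tr l σ) := by
  classical
  rcases σ.eq_empty_or_nonempty with rfl | ⟨v, hv⟩
  · have h0 : ∀ m : ι → ℤ, fl p c (tr m (∅ : Finset (ι → ℤ))) = 0 := by
      intro m
      by_contra h1
      have h2 := (fl_card c h1).2
      rw [Loc_card_tr] at h2
      simp at h2
    rw [h0]
    unfold lcr
    split_ifs
    · exact h0 _
    · rfl
  · have hex : ∃ l ∈ L, ∀ v ∈ σ, v + l ∈ B := ⟨l, hl, h⟩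
    unfold lcr
    rw [dif_pos hex]
    have h1 := Classical.choose_spec hex
    have h2 : Classical.choose hex - l = 0 := by
      refine hs _ (L.sub_mem h1.1 hl) (v + l) (h v hv) ?_
      have := h1.2 v hv
      rwa [show v + l + (Classical.choose hex - l) = v + Classical.choose hex by abel]
    rw [sub_eq_zero.1 h2]

theorem lcr_ne {L : AddSubgroup (ι → ℤ)} {B : Set (ι → ℤ)} (hs : Sepd L B) {p : ℕ}
    {c : K (ι → ℤ) F} {σ : Finset (ι → ℤ)} (h : lcr L B p c σ ≠ 0) :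
    ∃ l ∈ L, (∀ v ∈ σ, v + l ∈ B) ∧ fl p c (tr l σ) ≠ 0 := by
  classical
  have hex : ∃ l ∈ L, ∀ v ∈ σ, v + l ∈ B := by
    by_contra h1
    exact h (by unfold lcr; rw [dif_neg h1])
  obtain ⟨l, hl, h1⟩ := hex
  refine ⟨l, hl, h1, ?_⟩
  rwa [← lcr_eq hs c hl h1]

theorem lcr_tr {L : AddSubgroup (ι → ℤ)} {B : Set (ι → ℤ)} (hs : Sepd L B) {p : ℕ}
    (c : K (ι → ℤ) F) {m : ι → ℤ} (hm : m ∈ L) (σ : Finset (ι → ℤ)) :
    lcr L B p c (tr m σ) = lcr L B p c σ := by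
  classical
  by_cases hex : ∃ l ∈ L, ∀ v ∈ σ, v + l ∈ B
  · obtain ⟨l, hl, h⟩ := hex
    rw [lcr_eq hs c hl h]
    have h2 : ∀ w ∈ tr m σ, w + (l - m) ∈ B := by
      intro w hw
      obtain ⟨v, hv, rfl⟩ := Loc_mem_tr.1 hw
      rw [show v + m + (l - m) = v + l by abel]
      exact h v hv
    rw [lcr_eq hs c (L.sub_mem hl hm) h2, Pool.Agent.H47.ST.Lev_tr_tr,
      show m + (l - m) = l by abel]
  · have hex' : ¬ ∃ l ∈ L, ∀ v ∈ tr m σ, v + l ∈ B := by
      rintro ⟨l, hl, h⟩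
      refine hex ⟨m + l, L.add_mem hm hl, fun v hv => ?_⟩
      rw [← add_assoc]
      exact h (v + m) (Loc_mem_tr.2 ⟨v, hv, rfl⟩)
    unfold lcr
    rw [dif_neg hex, dif_neg hex']

/-- values of a cochain made invariant: it is enough to look at increasing sequences in `A ∩ B` -/
theorem lc_cases {L : AddSubgroup (ι → ℤ)} {A B : Set (ι → ℤ)} (hA : Inv L A) (hs : Sepd L B)
    {p : ℕ} {c : K (ι → ℤ) F} {σ : Finset (ι → ℤ)} (h : lc L A B p c σ ≠ 0) :
    In A σ ∧ σ.card = p + 1 ∧ ∃ l ∈ L, ∃ s : ℕ → ι → ℤ, (∀ i < p, s i < s (i + 1)) ∧ Ch p s ∧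
      (Finset.range (p + 1)).image s = tr l σ ∧ (∀ i ≤ p, s i ∈ A ∧ s i ∈ B) ∧
      lc L A B p c σ = c s ∧ s = en (tr l σ) := by
  have h1 : In A σ := by
    by_contra h1
    refine h ?_
    unfold lc
    rw [Pool.Agent.H47.ST.cut_apply, if_neg h1]
  have e1 : lc L A B p c σ = lcr L B p c σ := by
    unfold lc
    rw [Pool.Agent.H47.ST.cut_apply, if_pos h1]
  rw [e1] at h
  obtain ⟨l, hl, h2, h3⟩ := lcr_ne hs h
  obtain ⟨h4, h5⟩ := fl_card c h3
  obtain ⟨h6, h7, h8⟩ := en_spec h4 h5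
  have h9 : ∀ i ≤ p, en (tr l σ) i ∈ tr l σ := by
    intro i hi
    rw [← h8]
    exact Finset.mem_image.2 ⟨i, Finset.mem_range.2 (by omega), by rw [h8]⟩
  refine ⟨h1, by rw [← Loc_card_tr l, h5], l, hl, en (tr l σ), h6, h7, h8, fun i hi => ?_, ?_, rfl⟩
  · obtain ⟨v, hv, hve⟩ := Loc_mem_tr.1 (h9 i hi)
    rw [← hve]
    exact ⟨(hA l hl v).1 (h1.2 v hv), h2 v hv⟩
  · rw [e1, lcr_eq hs c hl h2]
    unfold fl
    rw [if_pos ⟨h4, h5⟩]

theorem lc_mem {L : AddSubgroup (ι → ℤ)} {A A' B : Set (ι → ℤ)} (hA : Inv L A) (hA' : Inv L A')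
    (hs : Sepd L B) {p : ℕ} {c : K (ι → ℤ) F}
    (h : ∀ s : ℕ → ι → ℤ, (∀ i < p, s i < s (i + 1)) → Ch p s → (∀ i ≤ p, s i ∈ A ∧ s i ∈ B) →
      c s ≠ 0 → ∃ i ≤ p, s i ∉ A') : lc L A B p c ∈ co (F := F) L A A' (p + 1) := by
  refine ⟨fun l hl σ => ?_, fun σ hσ => ?_⟩
  · unfold lc
    rw [Pool.Agent.H47.ST.cut_apply, Pool.Agent.H47.ST.cut_apply, lcr_tr hs c hl]
    by_cases h1 : In A σ
    · rw [if_pos h1, if_pos ((Pool.Agent.H47.ST.CellA_tr_In hA hl).2 h1)]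
    · rw [if_neg h1, if_neg (fun h2 => h1 ((Pool.Agent.H47.ST.CellA_tr_In hA hl).1 h2))]
  · obtain ⟨h1, h2, l, hl, s, h3, h4, h5, h6, h7, -⟩ := lc_cases hA hs hσ
    refine ⟨h1, fun h8 => ?_, h2⟩
    obtain ⟨i, hi, h9⟩ := h s h3 h4 h6 (h7 ▸ hσ)
    have h10 : s i ∈ tr l σ := h5 ▸ Finset.mem_image.2 ⟨i, Finset.mem_range.2 (by omega), rfl⟩
    obtain ⟨v, hv, hve⟩ := Loc_mem_tr.1 h10
    exact h9 (hve ▸ (hA' l hl v).1 (h8 v hv))

theorem lc_congr {L : AddSubgroup (ι → ℤ)} {A B : Set (ι → ℤ)} (hA : Inv L A)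
    (hs : Sepd L B) {p : ℕ} {c c' : K (ι → ℤ) F}
    (h : ∀ s : ℕ → ι → ℤ, (∀ i < p, s i < s (i + 1)) → Ch p s → (∀ i ≤ p, s i ∈ A ∧ s i ∈ B) →
      c s = c' s) : lc L A B p c = lc L A B p c' := by
  have key : ∀ (c c' : K (ι → ℤ) F), (∀ s : ℕ → ι → ℤ, (∀ i < p, s i < s (i + 1)) → Ch p s →
      (∀ i ≤ p, s i ∈ A ∧ s i ∈ B) → c s = c' s) → ∀ σ, lc L A B p c σ ≠ 0 →
      lc L A B p c σ = lc L A B p c' σ := by
    intro c c' h σ hσ
    obtain ⟨h1, h2, l, hl, s, h3, h4, h5, h6, h7, h8⟩ := lc_cases hA hs hσ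
    rw [h7, h s h3 h4 h6]
    have h9 : ∀ v ∈ σ, v + l ∈ B := by
      intro v hv
      have h10 : v + l ∈ (Finset.range (p + 1)).image s := h5 ▸ Loc_mem_tr.2 ⟨v, hv, rfl⟩
      obtain ⟨i, hi, he⟩ := Finset.mem_image.1 h10
      rw [← he]
      exact (h6 i (by rw [Finset.mem_range] at hi; omega)).2
    have h11 := (en_image (p := p) h3 h4)
    rw [h5] at h11
    unfold lc
    rw [Pool.Agent.H47.ST.cut_apply, if_pos h1, lcr_eq hs c' hl h9]
    unfold fl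
    rw [if_pos ⟨h11.1, h11.2.1⟩, h8]
  funext σ
  by_cases h1 : lc L A B p c σ = 0
  · by_cases h2 : lc L A B p c' σ = 0
    · rw [h1, h2]
    · exact (key c' c (fun s a b e => (h s a b e).symm) σ h2).symm
  · exact key c c' h σ h1

theorem lc_zero {L : AddSubgroup (ι → ℤ)} {A B : Set (ι → ℤ)} (hA : Inv L A)
    (hs : Sepd L B) {p : ℕ} {c : K (ι → ℤ) F}
    (h : ∀ s : ℕ → ι → ℤ, (∀ i < p, s i < s (i + 1)) → Ch p s → (∀ i ≤ p, s i ∈ A ∧ s i ∈ B) →
      c s = 0) : lc L A B p c = 0 := by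
  funext σ
  by_contra h1
  obtain ⟨-, -, l, hl, s, h3, h4, -, h6, h7, -⟩ := lc_cases hA hs h1
  exact h1 (by rw [h7, h s h3 h4 h6]; rfl)

theorem Loc_fl_smul (p : ℕ) (t : F) (c : K (ι → ℤ) F) (σ : Finset (ι → ℤ)) :
    fl p (t • c) σ = t * fl p c σ := by
  unfold fl
  by_cases h : Simp σ ∧ σ.card = p + 1
  · rw [if_pos h, if_pos h]; rfl
  · rw [if_neg h, if_neg h, mul_zero]

theorem Loc_fl_sub (p : ℕ) (c c' : K (ι → ℤ) F) (σ : Finset (ι → ℤ)) :
    fl p (c - c') σ = fl p c σ - fl p c' σ := by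
  unfold fl
  by_cases h : Simp σ ∧ σ.card = p + 1
  · rw [if_pos h, if_pos h, if_pos h]; rfl
  · rw [if_neg h, if_neg h, if_neg h, sub_zero]

theorem lc_smul (L : AddSubgroup (ι → ℤ)) (A B : Set (ι → ℤ)) (p : ℕ) (t : F)
    (c : K (ι → ℤ) F) : lc L A B p (t • c) = t • lc L A B p c := by
  classical
  have h0 : lcr L B p (t • c) = t • lcr L B p c := by
    funext σ
    rw [Pi.smul_apply, smul_eq_mul]
    unfold lcr
    by_cases h : ∃ l ∈ L, ∀ v ∈ σ, v + l ∈ B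
    · rw [dif_pos h, dif_pos h, Loc_fl_smul]
    · rw [dif_neg h, dif_neg h, mul_zero]
  unfold lc
  rw [h0, map_smul]

theorem lc_sub (L : AddSubgroup (ι → ℤ)) (A B : Set (ι → ℤ)) (p : ℕ) (c c' : K (ι → ℤ) F) :
    lc L A B p (c - c') = lc L A B p c - lc L A B p c' := by
  classical
  have h0 : lcr L B p (c - c') = lcr L B p c - lcr L B p c' := by
    funext σ
    rw [Pi.sub_apply]
    unfold lcr
    by_cases h : ∃ l ∈ L, ∀ v ∈ σ, v + l ∈ B
    · rw [dif_pos h, dif_pos h, dif_pos h, Loc_fl_sub]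
    · rw [dif_neg h, dif_neg h, dif_neg h, sub_zero]
  unfold lc
  rw [h0, map_sub]

/-- on a simplex in `A ∩ B` -/
theorem lc_apply {L : AddSubgroup (ι → ℤ)} {A B : Set (ι → ℤ)} (hs : Sepd L B) {p : ℕ}
    {c : K (ι → ℤ) F} (hc : Dep p c) {s : ℕ → ι → ℤ} (h1 : ∀ i < p, s i < s (i + 1))
    (h2 : Ch p s) (h3 : ∀ i ≤ p, s i ∈ A ∧ s i ∈ B) :
    lc L A B p c ((Finset.range (p + 1)).image s) = c s := by
  classical
  obtain ⟨h4, h5, h6⟩ := en_image (p := p) h1 h2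
  have h7 : In A ((Finset.range (p + 1)).image s) := ⟨h4, fun v hv => by
    obtain ⟨i, hi, rfl⟩ := Finset.mem_image.1 hv
    exact (h3 i (by rw [Finset.mem_range] at hi; omega)).1⟩
  have h8 : ∀ v ∈ (Finset.range (p + 1)).image s, v + 0 ∈ B := fun v hv => by
    obtain ⟨i, hi, rfl⟩ := Finset.mem_image.1 hv
    rw [add_zero]
    exact (h3 i (by rw [Finset.mem_range] at hi; omega)).2
  unfold lc
  rw [Pool.Agent.H47.ST.cut_apply, if_pos h7, lcr_eq hs c L.zero_mem h8,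
    Pool.Agent.H47.ST.Lev_tr_zero]
  unfold fl
  rw [if_pos ⟨h4, h5⟩]
  exact hc _ _ h6

/-- the coboundary of a local cochain which vanishes at the boundary of `B` -/
theorem lc_dX {L : AddSubgroup (ι → ℤ)} {A B : Set (ι → ℤ)} (hA : Inv L A)
    (hs : Sepd L B) {p : ℕ} {c : K (ι → ℤ) F} (hc : Dep p c)
    (h : ∀ s : ℕ → ι → ℤ, (∀ i < p, s i < s (i + 1)) → Ch p s → (∀ i ≤ p, s i ∈ A ∧ s i ∈ B) →
      c s ≠ 0 → ∀ w, Near w (s 0) → w ∈ B) :
    dX A (lc L A B p c) = lc L A B (p + 1) (d p c) := by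
  classical
  funext σ
  rw [Pool.Agent.H47.ST.dX_apply]
  by_cases hin : In A σ
  swap
  · rw [if_neg hin]
    unfold lc
    rw [Pool.Agent.H47.ST.cut_apply, if_neg hin]
  rw [if_pos hin]
  have er : ∀ v, In A (σ.erase v) := fun v => Pool.Agent.H47.ST.CellA_In_erase hin v
  by_cases hex : ∃ l ∈ L, ∀ v ∈ σ, v + l ∈ B
  · obtain ⟨l, hl, hB⟩ := hex
    have e1 : ∀ v ∈ σ, sgn F σ v * lc L A B p c (σ.erase v) =
        sgn F (tr l σ) (v + l) * fl p c ((tr l σ).erase (v + l)) := by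
      intro v hv
      unfold lc
      rw [Pool.Agent.H47.ST.cut_apply, if_pos (er v),
        lcr_eq hs c hl (fun w hw => hB w (Finset.mem_of_mem_erase hw)),
        Pool.Agent.H47.ST.CellA_tr_sgn, Pool.Agent.H47.ST.CellA_tr_erase]
    have e2 : ∑ v ∈ σ, sgn F σ v * lc L A B p c (σ.erase v) = dd (fl p c) (tr l σ) := by
      rw [Finset.sum_congr rfl e1, Pool.Agent.H47.ST.dd_apply]
      unfold tr
      rw [Finset.sum_map]
      rfl
    rw [e2]
    unfold lc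
    rw [Pool.Agent.H47.ST.cut_apply, if_pos hin, lcr_eq hs _ hl hB]
    have hS : Simp (tr l σ) := Pool.Agent.H47.ST.CellA_tr_Simp.2 hin.1
    by_cases hc2 : σ.card = p + 2
    · exact dd_fl hc hS (by rw [Loc_card_tr, hc2])
    · have e3 : fl (p + 1) (d p c) (tr l σ) = 0 := by
        by_contra h1
        have := (fl_card _ h1).2
        rw [Loc_card_tr] at this
        omega
      rw [e3, Pool.Agent.H47.ST.dd_apply]
      refine Finset.sum_eq_zero fun v hv => ?_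
      have e4 : fl p c ((tr l σ).erase v) = 0 := by
        by_contra h1
        have h2 := (fl_card _ h1).2
        rw [Finset.card_erase_of_mem hv, Loc_card_tr] at h2
        have h3 : 0 < (tr l σ).card := Finset.card_pos.2 ⟨v, hv⟩
        rw [Loc_card_tr] at h3
        omega
      rw [e4, mul_zero]
  · have e1 : lc L A B (p + 1) (d p c) σ = 0 := by
      unfold lc
      rw [Pool.Agent.H47.ST.cut_apply, if_pos hin]
      unfold lcr
      rw [dif_neg hex]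
    rw [e1]
    refine Finset.sum_eq_zero fun v hv => ?_
    have e2 : lc L A B p c (σ.erase v) = 0 := by
      by_contra h1
      obtain ⟨h2, h3, l, hl, s, h4, h5, h6, h7, h8, -⟩ := lc_cases hA hs h1
      refine hex ⟨l, hl, fun u hu => ?_⟩
      have h9 := h s h4 h5 h7 (h8 ▸ h1)
      have h10 : s 0 ∈ tr l (σ.erase v) := h6 ▸
        Finset.mem_image.2 ⟨0, Finset.mem_range.2 (by omega), rfl⟩
      obtain ⟨v', hv', he⟩ := Loc_mem_tr.1 h10
      refine h9 (u + l) ?_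
      rw [← he]
      intro i
      have h11 := hin.1 u hu v' (Finset.mem_of_mem_erase hv')
      simp only [Pi.add_apply, add_sub_add_right_eq_sub]
      rcases h11 with h11 | h11
      · have a1 := h11.1 i
        have a2 := h11.2 i
        simp only [Pi.add_apply, Pi.one_apply] at a2
        rw [abs_le]; constructor <;> linarith
      · have a1 := h11.1 i
        have a2 := h11.2 i
        simp only [Pi.add_apply, Pi.one_apply] at a2
        rw [abs_le]; constructor <;> linarith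
    rw [e2, mul_zero]

end Pool.Agent.H21.TU
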