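import Mathlib

/-!
# Project TU: cochains as functions of sequences of vertices

A `p`-cochain is a function of sequences `s : ℕ → V` which depends only on `s 0, …, s p`.
-/

set_option autoImplicit false

namespace Pool.Agent.H21.TU

variable {V F : Type*} [Field F]

/-- cochains -/
abbrev K (V F : Type*) := (ℕ → V) → F

/-- remove the entry number `i` -/
def del (i : ℕ) (s : ℕ → V) : ℕ → V := fun j => if j < i then s j else s (j + 1)

/-- remove the first `p` entries -/
def sh (p : ℕ) (s : ℕ → V) : ℕ → V := fun j => s (j + p)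

/-- `c` depends only on the entries `0, …, p` -/
def Dep (p : ℕ) (c : K V F) : Prop := ∀ s t : ℕ → V, (∀ i ≤ p, s i = t i) → c s = c t

/-- coboundary of a `p`-cochain -/
def d (p : ℕ) (c : K V F) : K V F := fun s => ∑ i ∈ Finset.range (p + 2), (-1) ^ i * c (del i s)

/-- cup product -/
def cup (p : ℕ) (a b : K V F) : K V F := fun s => a s * b (sh p s)

theorem sh_zero (s : ℕ → V) : sh 0 s = s := by
  funext j; simp [sh]

theorem sh_sh (p q : ℕ) (s : ℕ → V) : sh q (sh p s) = sh (p + q) s := by
  funext j; simp only [sh]; congr 1; omega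

theorem del_zero (s : ℕ → V) : del 0 s = sh 1 s := by
  funext j; simp [del, sh]

theorem del_gt {i p : ℕ} (h : p < i) (s : ℕ → V) : ∀ j ≤ p, del i s j = s j := by
  intro j hj
  rw [del, if_pos (by omega)]

theorem sh_del_le {i p : ℕ} (h : i ≤ p) (s : ℕ → V) : sh p (del i s) = sh (p + 1) s := by
  funext j
  simp only [sh, del]
  rw [if_neg (by omega)]
  congr 1

theorem sh_del_ge {i p : ℕ} (h : p ≤ i) (s : ℕ → V) : sh p (del i s) = del (i - p) (sh p s) := by
  funext j
  simp only [sh, del]
  by_cases hj : j + p < i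
  · rw [if_pos hj, if_pos (by omega)]
  · rw [if_neg hj, if_neg (by omega)]
    congr 1
    omega

omit [Field F] in
theorem Dep.mono {p q : ℕ} (h : p ≤ q) {c : K V F} (hc : Dep p c) : Dep q c :=
  fun s t hst => hc s t fun i hi => hst i (hi.trans h)

theorem Dep.d {p : ℕ} {c : K V F} (hc : Dep p c) : Dep (p + 1) (d p c) := by
  intro s t hst
  unfold TU.d
  refine Finset.sum_congr rfl fun i _ => ?_
  congr 1
  refine hc _ _ fun j hj => ?_
  simp only [del]
  by_cases h : j < i
  · rw [if_pos h, if_pos h]; exact hst j (by omega)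
  · rw [if_neg h, if_neg h]; exact hst (j + 1) (by omega)

theorem Dep.cup {p q : ℕ} {a b : K V F} (ha : Dep p a) (hb : Dep q b) :
    Dep (p + q) (cup p a b) := by
  intro s t hst
  unfold TU.cup
  rw [ha s t fun i hi => hst i (by omega), hb (sh p s) (sh p t) fun i hi => hst (i + p) (by omega)]

theorem cup_assoc (p q : ℕ) (a b c : K V F) :
    cup p a (cup q b c) = cup (p + q) (cup p a b) c := by
  funext s
  simp only [cup, sh_sh]
  ring

/-- Leibniz rule -/
theorem d_cup {p : ℕ} (q : ℕ) {a : K V F} (ha : Dep p a) (b : K V F) (s : ℕ → V) :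
    d (p + q) (cup p a b) s = cup (p + 1) (d p a) b s + (-1) ^ p * cup p a (d q b) s := by
  have e1 : d (p + q) (cup p a b) s =
      ∑ i ∈ Finset.range (p + 1), (-1) ^ i * a (del i s) * b (sh (p + 1) s) +
      ∑ k ∈ Finset.range (q + 1), (-1) ^ (p + 1 + k) * (a s * b (del (k + 1) (sh p s))) := by
    unfold d
    rw [show p + q + 2 = (p + 1) + (q + 1) by omega, Finset.sum_range_add]
    congr 1
    · refine Finset.sum_congr rfl fun i hi => ?_
      rw [Finset.mem_range] at hi
      unfold cup
      rw [sh_del_le (by omega), mul_assoc]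
    · refine Finset.sum_congr rfl fun k _ => ?_
      unfold cup
      rw [sh_del_ge (by omega), ha (del (p + 1 + k) s) s (del_gt (by omega) s),
        show p + 1 + k - p = k + 1 by omega]
  have e2 : d p a s = ∑ i ∈ Finset.range (p + 1), (-1) ^ i * a (del i s) + (-1) ^ (p + 1) * a s := by
    unfold d
    rw [Finset.sum_range_succ, ha (del (p + 1) s) s (del_gt (by omega) s)]
  have e3 : d q b (sh p s) = b (sh (p + 1) s) +
      ∑ k ∈ Finset.range (q + 1), (-1) ^ (k + 1) * b (del (k + 1) (sh p s)) := by
    unfold d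
    rw [Finset.sum_range_succ', pow_zero, one_mul, del_zero, sh_sh, add_comm]
  have e4 : ∑ k ∈ Finset.range (q + 1), (-1 : F) ^ (p + 1 + k) *
      (a s * b (del (k + 1) (sh p s))) = (-1) ^ p * (a s *
        ∑ k ∈ Finset.range (q + 1), (-1) ^ (k + 1) * b (del (k + 1) (sh p s))) := by
    rw [Finset.mul_sum, Finset.mul_sum]
    refine Finset.sum_congr rfl fun k _ => ?_
    rw [show p + 1 + k = p + (k + 1) by omega, pow_add]
    ring
  have e5 : ∑ i ∈ Finset.range (p + 1), (-1 : F) ^ i * a (del i s) * b (sh (p + 1) s) =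
      (∑ i ∈ Finset.range (p + 1), (-1) ^ i * a (del i s)) * b (sh (p + 1) s) := by
    rw [Finset.sum_mul]
  rw [e1, e4, e5]
  unfold cup
  rw [e2, e3, pow_succ]
  ring

/-- pull back along a map of vertices -/
def pb {V' : Type*} (g : V' → V) (c : K V F) : K V' F := fun s => c (fun j => g (s j))

theorem d_pb {V' : Type*} (g : V' → V) (p : ℕ) (c : K V F) : d p (pb g c) = pb g (d p c) := by
  funext s
  unfold d pb
  refine Finset.sum_congr rfl fun i _ => ?_
  congr 2
  funext j
  simp only [del]
  split_ifs <;> rfl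

omit [Field F] in
theorem Dep.pb {V' : Type*} (g : V' → V) {p : ℕ} {c : K V F} (hc : Dep p c) : Dep p (pb g c) :=
  fun _ _ h => hc _ _ fun i hi => congrArg g (h i hi)

/-- the zero cochain of a function on the vertices -/
def c0 (H : V → F) : K V F := fun s => H (s 0)

/-- the coboundary of a function on the vertices -/
def c1 (H : V → F) : K V F := fun s => H (s 1) - H (s 0)

omit [Field F] in
theorem Dep.c0 (H : V → F) : Dep 0 (c0 H) := fun s t h => by
  unfold TU.c0; rw [h 0 le_rfl]

theorem Dep.c1 (H : V → F) : Dep 1 (c1 H) := fun s t h => by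
  unfold TU.c1; rw [h 0 (by omega), h 1 le_rfl]

theorem d_c0 (H : V → F) : d 0 (c0 H) = c1 H := by
  funext s
  unfold d c0 c1
  simp [Finset.sum_range_succ, del]
  ring

theorem d_c1 (H : V → F) : d 1 (c1 H) = 0 := by
  funext s
  unfold d c1
  simp [Finset.sum_range_succ, del]

/-- product of a `p`-cochain with the increment of `H` between the ends -/
def pe (p : ℕ) (a : K V F) (H : V → F) : K V F := fun s => a s * (H (s p) - H (s 0))

theorem Dep.pe {p : ℕ} {a : K V F} (ha : Dep p a) (H : V → F) : Dep p (pe p a H) :=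
  fun s t h => by unfold TU.pe; rw [ha s t h, h p le_rfl, h 0 (by omega)]

/-- moving a wall past a cochain -/
theorem d_pe {p : ℕ} {a : K V F} (ha : Dep p a) (H : V → F) (s : ℕ → V) :
    d p (pe p a H) s = d p a s * (H (s (p + 1)) - H (s 0)) +
      (-1) ^ p * cup p a (c1 H) s - cup 1 (c1 H) a s := by
  have h1 : ∀ i ∈ Finset.range (p + 2), (-1 : F) ^ i * pe p a H (del i s) =
      (-1) ^ i * a (del i s) * (H (s (p + 1)) - H (s 0)) -
        (if i = p + 1 then (-1) ^ i * a (del i s) * (H (s (p + 1)) - H (s p)) else 0) -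
        (if i = 0 then (-1) ^ i * a (del i s) * (H (s 1) - H (s 0)) else 0) := by
    intro i hi
    rw [Finset.mem_range] at hi
    unfold pe
    by_cases h0 : i = 0
    · subst h0
      rw [if_neg (by omega), if_pos rfl]
      simp only [del, Nat.not_lt_zero, if_false]
      ring
    · rw [if_neg h0]
      have e0 : del i s 0 = s 0 := by simp only [del]; rw [if_pos (by omega)]
      by_cases h1 : i = p + 1
      · rw [if_pos h1]
        have e1 : del i s p = s p := by simp only [del]; rw [if_pos (by omega)]
        rw [e0, e1]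
        ring
      · rw [if_neg h1]
        have e1 : del i s p = s (p + 1) := by simp only [del]; rw [if_neg (by omega)]
        rw [e0, e1]
        ring
  unfold d
  rw [Finset.sum_congr rfl h1, Finset.sum_sub_distrib, Finset.sum_sub_distrib,
    Finset.sum_ite_eq', Finset.sum_ite_eq', if_pos (Finset.mem_range.2 (by omega)),
    if_pos (Finset.mem_range.2 (by omega)), ← Finset.sum_mul,
    ha (del (p + 1) s) s (del_gt (by omega) s), del_zero]
  unfold cup c1
  simp only [sh]
  rw [show 1 + p = p + 1 by omega, show 0 + p = p by omega, pow_succ]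
  ring

/-- cup product of a list of cochains with their degrees -/
def cups : List (ℕ × K V F) → K V F
  | [] => fun _ => 1
  | (p, c) :: L => cup p c (cups L)

/-- total degree -/
def deg (L : List (ℕ × K V F)) : ℕ := (L.map Prod.fst).sum

end Pool.Agent.H21.TU
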